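import Pool.Agent.Helper94.PG.Prime
import Pool.Agent.Helper3.PG.Chain
import Pool.Agent.Helper98.PG.Real
import Pool.Agent.Helper99.PG.Num
import Pool.Agent.Helper2.PG.Bound

/-!
Project PG (MP_b8862a_ag), block PR: the configuration of the top level, final form.
-/

set_option linter.unusedSectionVars false
set_option linter.unusedVariables false

open Module LieModule LieAlgebra LieAlgebra.IsKilling MTP.MF

namespace PG.L

open PF PF.W PF.CC PF.L PG

variable {K : Type*} [Field K] [CharZero K] [IsAlgClosed K]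
  {L : Type*} [LieRing L] [LieAlgebra K L] [FiniteDimensional K L] [IsKilling K L]
  {H : LieSubalgebra K L} [H.IsCartanSubalgebra]
  {V : Type*} [AddCommGroup V] [Module K V] [FiniteDimensional K V]
  [LieRingModule L V] [LieModule K L V] {I : Type*} [Fintype I] (B : WB (V := V) H I)

/-- a base for which a rational element is dominant -/
theorem exists_dom {D : H} (hrt : ∀ α : H.root, Three (α.1 D)) : ∃ b : (rootSystem H).Base, Dom b D := by
  obtain ⟨π, hπ⟩ := exists_proj K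
  let l : Dual K H →+ ℚ := π.toAddMonoidHom.comp (LinearMap.applyₗ (R := K) D : Dual K H →ₗ[K] K).toAddMonoidHom
  obtain ⟨b, hb⟩ := exists_base_nonneg (rootSystem H) l
  refine ⟨b, fun i hi => ?_⟩
  have h1 := hb i hi
  have h2 : l ((rootSystem H).root i) = π (i.1 D) := rfl
  rw [h2] at h1
  have h3 : (rootSystem H).toLinearMap ((rootSystem H).root i) D = i.1 D := rfl
  rw [h3]
  rcases hrt i with h | h | h
  · exact ⟨0, by rw [h]; simp⟩
  · exact ⟨1, by rw [h]; simp⟩
  · exfalso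
    have h4 := hπ (-1)
    rw [h] at h1
    have h5 : ((-1 : ℚ) : K) = -1 := by push_cast; rfl
    rw [h5] at h4
    rw [h4] at h1
    norm_num at h1

open Classical in
/-- the chain lemma for coroots -/
theorem coroot_count (b : (rootSystem H).Base) {D : H} (hD : Dom b D)
    (h3 : ∀ α β : H.root, (rootSystem H).pairingIn ℤ α β ≤ 2) (f : Dual K H)
    (hf : ∀ j ∈ b.support, ∃ k : ℕ, f (coroot j.1) = (k : K)) (α : H.root) (hα : b.IsPos α) (hαD : α.1 D = 0)
    (hfα : f (coroot α.1) ≠ 0) : b.flip.height α ≤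
      ((Finset.univ.filter fun β : H.root => b.IsPos β ∧ β.1 D = 0 ∧ f (coroot β.1) ≠ 0).card : ℤ) := by
  have h1 := chain_count (P := (rootSystem H).flip) b.flip (fun i j => h3 j i) f (varpi (rootSystem H) D) hf
    (varpi_dom hD) (a := α) ((isPos_flip b α).2 hα)
    ((varpi_zero_iff (P := rootSystem H) D α).2 hαD) hfα
  refine h1.trans ?_
  have h2 : ((pos b.flip).filter fun i : H.root => varpi (rootSystem H) D ((rootSystem H).flip.root i) = 0 ∧
      f ((rootSystem H).flip.root i) ≠ 0) ⊆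
      (Finset.univ.filter fun β : H.root => b.IsPos β ∧ β.1 D = 0 ∧ f (coroot β.1) ≠ 0) := by
    intro β hβ
    rw [Finset.mem_filter] at hβ ⊢
    refine ⟨Finset.mem_univ _, ?_, ?_, hβ.2.2⟩
    · have h4 : b.flip.IsPos β := by simpa [pos] using hβ.1
      exact (isPos_flip b β).1 h4
    · exact (varpi_zero_iff (P := rootSystem H) D β).1 hβ.2.1
  exact_mod_cast Finset.card_le_card h2

/-- The pairings of the roots are at most two. -/
theorem pairing_le {D : H} {ℓ : EuclideanSpace ℝ H.root →ₗ[ℝ] ℝ} (h : Lev (Ph (rootSystem H)) ℓ.toAddMonoidHom)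
    (α β : H.root) : (rootSystem H).pairingIn ℤ α β ≤ 2 := by
  have h1 : vec (rt (rootSystem H) β) ∈ Ph (rootSystem H) := (mem_Ph _).2 ⟨β, rfl⟩
  have h1' : vec (rt (rootSystem H) α) ∈ Ph (rootSystem H) := (mem_Ph _).2 ⟨α, rfl⟩
  obtain ⟨w, hw, hwa⟩ := h.conj h1
  have h2 := hw.co h.toRS (vec (rt (rootSystem H) β)) (vec (rt (rootSystem H) α))
  rw [co_vec _ (wt_rt _ α) β] at h2
  have h3 := h.refl _ (hw.mem h.toRS h1) _ (hw.mem h.toRS h1')
  rw [h2] at h3
  have h4 := h.lev _ h3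
  have h5 := h.lev _ (hw.mem h.toRS h1')
  have h6 : (ℓ.toAddMonoidHom) (w (vec (rt (rootSystem H) α)) - ((rt (rootSystem H) α β : ℤ) : ℝ) • w (vec (rt (rootSystem H) β))) =
      ℓ.toAddMonoidHom (w (vec (rt (rootSystem H) α))) - (rt (rootSystem H) α β : ℤ) := by
    rw [map_sub]
    congr 1
    have h7 : ℓ.toAddMonoidHom (((rt (rootSystem H) α β : ℤ) : ℝ) • w (vec (rt (rootSystem H) β))) =
      ((rt (rootSystem H) α β : ℤ) : ℝ) * ℓ.toAddMonoidHom (w (vec (rt (rootSystem H) β))) := ℓ.map_smul _ _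
    rw [h7, hwa, mul_one]
  rw [h6] at h4
  have h8 : (rt (rootSystem H) α β : ℝ) ≤ 2 := by
    rcases h4 with h4 | h4 | h4 <;> rcases h5 with h5 | h5 | h5 <;> linarith
  have h9 : rt (rootSystem H) α β = (rootSystem H).pairingIn ℤ α β := rfl
  rw [← h9]
  exact_mod_cast h8

variable {ω : LinearMap.BilinForm K V}

open Classical in
/-- **The configuration of the top level.** -/
theorem top_config [Nonempty I] [Nonempty H.root] [(rootSystem H).IsIrreducible]
    (hirr : ∀ W : Submodule K V, (∀ x : L, ∀ u ∈ W, ⁅x, u⁆ ∈ W) → W = ⊥ ∨ W = ⊤)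
    (hfaith : ∀ x : L, (∀ u : V, ⁅x, u⁆ = 0) → x = 0)
    (hnd : ω.Nondegenerate) (hsk : ∀ (x : L) (u v : V), ω ⁅x, u⁆ v = - ω u ⁅x, v⁆)
    {y : H} (hy : y ≠ 0) {ℓ : EuclideanSpace ℝ H.root →ₗ[ℝ] ℝ} (hℓ : IsLev y ℓ)
    (hrt : ∀ α : H.root, Three (α.1 y)) (hw : ∀ i, Three (B.w i y)) {s : ℕ}
    (hs : (Finset.univ.filter fun i => B.w i y = 1).card = s) (hp : s.Prime) (h3 : 3 ≤ s) :
    ∃ ν : ℕ → EuclideanSpace ℝ H.root, (∀ x, (x ∈ Xw B ∧ ℓ x = 1) ↔ ∃ j < s, x = ν j) ∧
      (∀ i < s, ∀ j < s, ν i = ν j → i = j) ∧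
      (∀ i j, B.w i y = 1 → B.w j y = 1 → B.w i = B.w j → i = j) ∧
      (IsA (Ph (rootSystem H)) s ν ∨ (5 ≤ s ∧ IsB (Ph (rootSystem H)) s ν) ∨ (s = 3 ∧ IsB1 (Ph (rootSystem H)) ν)) := by
  obtain ⟨b, hD⟩ := exists_dom hrt
  have hLev : Lev (Ph (rootSystem H)) ℓ.toAddMonoidHom := hℓ.lev hy hrt
  have hSat := sat B hirr hnd hsk
  have hne : ∃ i, B.w i y = 1 := by
    by_contra! hcon
    rw [Finset.filter_false_of_mem (fun i _ => hcon i), Finset.card_empty] at hs
    omega
  have h2 : ∀ (α : H.root) (i : I), wt B i α ≤ 2 := by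
    intro α i
    have h4 := hLev.co_le_two hSat (fun x hx => by
      rcases hℓ.lev_X B hw hx with h | h | h
      · exact le_of_eq_of_le h (by norm_num)
      · exact le_of_eq_of_le h (by norm_num)
      · exact le_of_eq_of_le h (by norm_num)) ((mem_Ph _).2 ⟨α, rfl⟩) ((mem_Xw B).2 ⟨i, rfl⟩)
    rw [co_vec _ (wt_wt B i) α] at h4
    exact_mod_cast h4
  have hpair := fun α β => pairing_le (D := y) hLev α β
  obtain ⟨ν, h4, h5, h6, h7, h8⟩ := top_config_of B hirr hfaith b hD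
    (fun i => by
      rcases hw i with h | h | h
      · exact Or.inr (Or.inl h)
      · exact Or.inl h
      · exact Or.inr (Or.inr h)) hne hs hp h3 h2 hpair
    (fun f hf α hα hαD hfα => coroot_count b hD hpair f hf α hα hαD hfα)
  refine ⟨ν, ?_, h6, ?_, h8⟩
  · intro x
    constructor
    · rintro ⟨hx, hx1⟩
      obtain ⟨i, rfl⟩ := (mem_Xw B).1 hx
      have h9 : B.w i y = 1 := by
        obtain ⟨k, hk, -⟩ := (hw i).int
        have := (hℓ.weight_iff B ⟨k, hk⟩ 1).1 (by rw [hx1]; simp)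
        simpa using this
      obtain ⟨j, hj, h10⟩ := h4 i h9
      exact ⟨j, hj, h10.symm⟩
    · rintro ⟨j, hj, rfl⟩
      obtain ⟨i, hi, h10⟩ := h5 j hj
      rw [h10]
      refine ⟨(mem_Xw B).2 ⟨i, rfl⟩, ?_⟩
      have := hℓ.weight B (i := i) (k := 1) (by rw [hi]; simp)
      simpa using this
  · intro i j hi hj hij
    refine h7 i j hi hj ?_
    congr 1
    funext α
    have h9 : ((wt B i α : ℤ) : K) = ((wt B j α : ℤ) : K) := by
      rw [← wt_spec, ← wt_spec, hij]
    exact_mod_cast h9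

end PG.L
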