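import Pool.Agent.Helper55.PG.Walk

/-!
Project PG (MP_b8862a_ag), block H1: the weights of the top level. If there are few weights, they form the standard
configuration of type `A` or `B`.
-/

set_option linter.unusedSectionVars false
set_option linter.unusedVariables false

namespace PG

open PF

variable {E : Type*} [NormedAddCommGroup E] [InnerProductSpace ℝ E]

/-- A root system `Φ` and a set of weights `Y` with pairings at most `2`. -/
structure Top (Φ Y : Finset E) : Prop where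
  ne_zero : ∀ a ∈ Φ, a ≠ 0
  int : ∀ a ∈ Φ, ∀ b ∈ Φ, ∃ k : ℤ, co a b = k
  refl : ∀ a ∈ Φ, ∀ b ∈ Φ, b - co a b • a ∈ Φ
  red : ∀ a ∈ Φ, ∀ c : ℝ, c • a ∈ Φ → c = 1 ∨ c = -1
  no3 : ∀ a ∈ Φ, ∀ b ∈ Φ, co a b ≠ 3
  intY : ∀ a ∈ Φ, ∀ x ∈ Y, ∃ k : ℤ, co a x = k
  str : ∀ a ∈ Φ, ∀ x ∈ Y, ∀ j : ℕ, (j : ℝ) ≤ co a x → x - (j : ℝ) • a ∈ Y
  le2 : ∀ a ∈ Φ, ∀ x ∈ Y, co a x ≤ 2

theorem co_neg_left (a x : E) : co (-a) x = -co a x := by
  unfold co
  rw [inner_neg_right, inner_neg_left, inner_neg_right]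
  ring

/-- the reflection -/
noncomputable def rf (a x : E) : E := x - co a x • a

theorem rf_rf {a : E} (ha : a ≠ 0) (x : E) : rf a (rf a x) = x := by
  unfold rf
  rw [co_sub, co_smul, co_self' ha]
  module

theorem rf_sub (a x y : E) : rf a (x - y) = rf a x - rf a y := by
  unfold rf
  rw [co_sub]
  module

theorem rf_add (a x y : E) : rf a (x + y) = rf a x + rf a y := by
  unfold rf
  rw [co_add]
  module

theorem rf_neg (a x : E) : rf a (-x) = -rf a x := by
  have h := rf_sub a 0 x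
  have h0 : rf a (0 : E) = 0 := by
    unfold rf
    unfold co
    simp
  rw [h0, zero_sub, zero_sub] at h
  exact h

theorem inner_rf {a : E} (ha : a ≠ 0) (x y : E) : inner ℝ (rf a x) (rf a y) = (inner ℝ x y : ℝ) :=
  inner_refl' ha x y

theorem co_rf {a : E} (ha : a ≠ 0) (x y : E) : co (rf a x) (rf a y) = co x y := by
  unfold co
  rw [inner_rf ha, inner_rf ha]

namespace Top

variable {Φ Y : Finset E} (T : Top Φ Y)
include T

theorem neg {a : E} (ha : a ∈ Φ) : -a ∈ Φ := by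
  have h := T.refl a ha a ha
  rw [co_self' (T.ne_zero a ha)] at h
  have h2 : a - (2 : ℝ) • a = -a := by module
  rwa [h2] at h

theorem rf_mem {a b : E} (ha : a ∈ Φ) (hb : b ∈ Φ) : rf a b ∈ Φ := T.refl a ha b hb

theorem rfY {a x : E} (ha : a ∈ Φ) (hx : x ∈ Y) : rf a x ∈ Y := by
  obtain ⟨k, hk⟩ := T.intY a ha x hx
  rcases le_total 0 k with h | h
  · obtain ⟨n, rfl⟩ := Int.eq_ofNat_of_zero_le h
    have h1 := T.str a ha x hx n (by rw [hk]; simp)
    unfold rf
    rw [hk]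
    simpa using h1
  · obtain ⟨n, hn⟩ := Int.eq_ofNat_of_zero_le (neg_nonneg.2 h)
    have h1 := T.str (-a) (T.neg ha) x hx n (by
      rw [co_neg_left, hk]
      have : (-(k : ℝ)) = ((n : ℤ) : ℝ) := by rw [← hn]; push_cast; ring
      rw [this]
      simp)
    unfold rf
    rw [hk]
    have h2 : x - (k : ℝ) • a = x - (n : ℝ) • (-a) := by
      have : (k : ℝ) = -(n : ℝ) := by
        have h3 : (-(k : ℝ)) = ((n : ℤ) : ℝ) := by rw [← hn]; push_cast; ring
        push_cast at h3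
        linarith
      rw [this]
      module
    rwa [h2]

end Top

/-- The squared distance. -/
noncomputable def dq (x y : E) : ℝ := inner ℝ (x - y) (x - y)

theorem dq_comm (x y : E) : dq x y = dq y x := by
  unfold dq
  rw [← neg_sub y x, inner_neg_neg]

theorem dq_pos {x y : E} (h : x ≠ y) : 0 < dq x y := real_inner_self_pos.2 (sub_ne_zero.2 h)

section caseA

variable {Φ Y : Finset E}

/-- The configuration in which all differences are roots and all pairings are at most one. -/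
structure Flat (Φ Y : Finset E) : Prop where
  root : ∀ x ∈ Y, ∀ y ∈ Y, x ≠ y → x - y ∈ Φ ∧ co (x - y) x = 1
  le1 : ∀ g ∈ Φ, ∀ x ∈ Y, co g x ≤ 1

variable (T : Top Φ Y) (F : Flat Φ Y)
include T F

theorem Flat.norm {x y : E} (hx : x ∈ Y) (hy : y ∈ Y) : (inner ℝ x x : ℝ) = inner ℝ y y := by
  by_cases h : x = y
  · rw [h]
  have h1 := (F.root x hx y hy h).2
  have h2 := dq_pos h
  unfold co at h1
  unfold dq at h2
  rw [div_eq_one_iff_eq h2.ne'] at h1
  rw [inner_sub_left, inner_sub_right, inner_sub_right, real_inner_comm x y] at h1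
  linarith

/-- the pairing with a difference in terms of distances -/
theorem Flat.inner_eq {x y z : E} (hx : x ∈ Y) (hy : y ∈ Y) (hz : z ∈ Y) :
    (inner ℝ z (x - y) : ℝ) = (dq y z - dq x z) / 2 := by
  have h1 := F.norm T hx hy
  have h2 := F.norm T hx hz
  unfold dq
  simp only [inner_sub_left, inner_sub_right]
  rw [real_inner_comm z x, real_inner_comm z y]
  linarith

theorem Flat.pair {x y z : E} (hx : x ∈ Y) (hy : y ∈ Y) (hz : z ∈ Y) (hxy : x ≠ y) :
    ∃ k : ℤ, dq y z - dq x z = k * dq x y ∧ (k = -1 ∨ k = 0 ∨ k = 1) ∧ co (x - y) z = k := by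
  obtain ⟨hr, -⟩ := F.root x hx y hy hxy
  obtain ⟨k, hk⟩ := T.intY _ hr z hz
  have h0 := dq_pos hxy
  have h1 : dq y z - dq x z = k * dq x y := by
    rw [← hk]
    unfold co
    rw [F.inner_eq T hx hy hz]
    change _ = 2 * ((dq y z - dq x z) / 2) / dq x y * dq x y
    field_simp
  have h2 := F.le1 _ hr z hz
  have h3 := F.le1 _ (T.neg hr) z hz
  rw [co_neg_left] at h3
  rw [hk] at h2 h3
  have h4 : k ≤ 1 := by exact_mod_cast h2
  have h5 : -k ≤ 1 := by exact_mod_cast h3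
  exact ⟨k, h1, by omega, hk⟩

/-- In a triangle with a largest side, the two other sides are equal, and the largest side is equal to
them or their double. -/
theorem Flat.tri {x y z : E} (hx : x ∈ Y) (hy : y ∈ Y) (hz : z ∈ Y) (hxy : x ≠ y) (hxz : x ≠ z) (hyz : y ≠ z)
    (h1 : dq x z ≤ dq x y) (h2 : dq y z ≤ dq x y) : dq x z = dq y z ∧ (dq x y = dq x z ∨ dq x y = 2 * dq x z) := by
  have p1 := dq_pos hxy
  have p2 := dq_pos hxz
  have p3 := dq_pos hyz
  obtain ⟨k, hk, hk', -⟩ := F.pair T hx hy hz hxy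
  obtain ⟨m, hm, hm', -⟩ := F.pair T hx hz hy hxz
  have hk0 : k = 0 := by
    rcases hk' with rfl | rfl | rfl
    · exfalso
      push_cast at hk
      linarith
    · rfl
    · exfalso
      push_cast at hk
      linarith
  rw [hk0] at hk
  have e1 : dq x z = dq y z := by
    push_cast at hk
    linarith
  refine ⟨e1, ?_⟩
  rw [dq_comm z y] at hm
  rcases hm' with rfl | rfl | rfl
  · right
    push_cast at hm
    linarith
  · left
    push_cast at hm
    linarith
  · left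
    push_cast at hm
    linarith

/-- Two long sides at a vertex: the third side is long. -/
theorem Flat.long_trans {a : ℝ} (ha : 0 < a)
    (hall : ∀ x ∈ Y, ∀ y ∈ Y, x ≠ y → dq x y = a ∨ dq x y = 2 * a)
    {x y z : E} (hx : x ∈ Y) (hy : y ∈ Y) (hz : z ∈ Y) (hxy : x ≠ y) (hxz : x ≠ z) (hyz : y ≠ z)
    (h1 : dq x y = 2 * a) (h2 : dq x z = 2 * a) : dq y z = 2 * a := by
  rcases hall y hy z hz hyz with h | h
  · exfalso
    have := (F.tri T hx hy hz hxy hxz hyz (by rw [h1, h2]) (by rw [h1, h]; linarith)).1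
    rw [h2, h] at this
    linarith
  · exact h

theorem Flat.short_of_long {a : ℝ} (ha : 0 < a)
    (hall : ∀ x ∈ Y, ∀ y ∈ Y, x ≠ y → dq x y = a ∨ dq x y = 2 * a)
    {i k j : E} (hi : i ∈ Y) (hk : k ∈ Y) (hj : j ∈ Y) (hik : i ≠ k) (h1 : dq i k = 2 * a)
    (hij : i ≠ j) (h2 : dq i j = a) : k ≠ j ∧ dq k j = a := by
  have hkj : k ≠ j := by
    rintro rfl
    rw [h1] at h2
    linarith
  refine ⟨hkj, ?_⟩
  rcases hall k hk j hj hkj with h | h
  · exact h
  · exfalso
    have := F.long_trans T ha hall hk hi hj hik.symm hkj hij (by rw [dq_comm]; exact h1) h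
    rw [h2] at this
    linarith

/-- The fourth point of the parallelogram. -/
theorem Flat.move {a : ℝ} (ha : 0 < a)
    (hall : ∀ x ∈ Y, ∀ y ∈ Y, x ≠ y → dq x y = a ∨ dq x y = 2 * a)
    {i k j : E} (hi : i ∈ Y) (hk : k ∈ Y) (hj : j ∈ Y) (hik : i ≠ k) (h1 : dq i k = 2 * a)
    (hij : i ≠ j) (h2 : dq i j = a) : k + i - j ∈ Y ∧ dq j (k + i - j) = 2 * a := by
  obtain ⟨hkj, h3⟩ := F.short_of_long T ha hall hi hk hj hik h1 hij h2
  obtain ⟨m, hm, -, hm2⟩ := F.pair T hi hj hk hij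
  rw [dq_comm j k, h3, h1, h2] at hm
  have h4 : (m : ℝ) = -1 := by
    have : ((m : ℝ) + 1) * a = 0 := by linarith
    rcases mul_eq_zero.1 this with h | h
    · linarith
    · exact absurd h ha.ne'
  constructor
  · have h5 := T.rfY (F.root i hi j hj hij).1 hk
    unfold rf at h5
    rw [hm2, h4] at h5
    have h6 : k - (-1 : ℝ) • (i - j) = k + i - j := by module
    rwa [h6] at h5
  · unfold dq at *
    have h7 : j - (k + i - j) = -((k - j) + (i - j)) := by abel
    rw [h7, inner_neg_neg]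
    have h8 : i - k = (i - j) - (k - j) := by abel
    rw [h8] at h1
    rw [inner_add_left, inner_add_right, inner_add_right]
    rw [inner_sub_left (i - j), inner_sub_right (i - j), inner_sub_right (k - j)] at h1
    rw [real_inner_comm (k - j) (i - j)] at h1 ⊢
    linarith

/-- If the number of points is odd, all distances are equal. -/
theorem Flat.equi (hodd : Odd Y.card) : ∃ l : ℝ, 0 < l ∧ ∀ x ∈ Y, ∀ y ∈ Y, x ≠ y → dq x y = l := by
  classical
  by_cases hY : ∃ x ∈ Y, ∃ y ∈ Y, x ≠ y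
  swap
  · push Not at hY
    exact ⟨1, one_pos, fun x hx y hy h => absurd (hY x hx y hy) h⟩
  obtain ⟨x1, hx1, y1, hy1, hxy1⟩ := hY
  obtain ⟨p0, hp0, hmin⟩ := Finset.exists_min_image ((Y ×ˢ Y).filter fun p => p.1 ≠ p.2) (fun p => dq p.1 p.2)
    ⟨(x1, y1), by simp [hx1, hy1, hxy1]⟩
  obtain ⟨x0, y0⟩ := p0
  simp only [Finset.mem_filter, Finset.mem_product] at hp0 hmin
  obtain ⟨⟨hx0, hy0⟩, hxy0⟩ := hp0
  obtain ⟨a, ha⟩ : ∃ a, a = dq x0 y0 := ⟨_, rfl⟩
  have hmin' : ∀ x ∈ Y, ∀ y ∈ Y, x ≠ y → a ≤ dq x y := by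
    intro x hx y hy h
    rw [ha]
    exact hmin (x, y) ⟨⟨hx, hy⟩, h⟩
  have ha0 : 0 < a := by
    rw [ha]
    exact dq_pos hxy0
  -- every point has a short side
  have hN : ∀ z ∈ Y, ∃ w ∈ Y, z ≠ w ∧ dq z w = a := by
    intro z hz
    by_cases h1 : z = x0
    · exact ⟨y0, hy0, by rw [h1]; exact hxy0, by rw [h1, ha]⟩
    by_cases h2 : z = y0
    · exact ⟨x0, hx0, by rw [h2]; exact hxy0.symm, by rw [h2, ha, dq_comm]⟩
    rcases le_total (dq y0 z) (dq x0 z) with h3 | h3
    · have h4 := F.tri T hx0 hz hy0 (Ne.symm h1) hxy0 h2 (by rw [← ha]; exact hmin' _ hx0 _ hz (Ne.symm h1))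
        (by rw [dq_comm z y0]; exact h3)
      exact ⟨y0, hy0, h2, by rw [← h4.1, ha]⟩
    · have h4 := F.tri T hy0 hz hx0 (Ne.symm h2) hxy0.symm h1
        (by rw [dq_comm y0 x0, ← ha]; exact hmin' _ hy0 _ hz (Ne.symm h2)) (by rw [dq_comm z x0]; exact h3)
      exact ⟨x0, hx0, h1, by rw [← h4.1, dq_comm, ha]⟩
  have hall : ∀ x ∈ Y, ∀ y ∈ Y, x ≠ y → dq x y = a ∨ dq x y = 2 * a := by
    intro z hz u hu hzu
    obtain ⟨w, hw, hzw, h1⟩ := hN z hz
    by_cases h2 : u = w
    · left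
      rw [h2, h1]
    rcases le_total (dq u w) (dq z u) with h3 | h3
    · have h4 := F.tri T hz hu hw hzu hzw h2 (by rw [h1]; exact hmin' _ hz _ hu hzu) h3
      rw [h1] at h4
      exact h4.2
    · left
      have h4 := F.tri T hu hw hz h2 hzu.symm hzw.symm (by rw [dq_comm u z]; exact h3)
        (by rw [dq_comm w z, h1]; exact hmin' _ hu _ hw h2)
      rw [dq_comm z u, h4.1, dq_comm w z, h1]
  by_cases hlong : ∃ i ∈ Y, ∃ k ∈ Y, i ≠ k ∧ dq i k = 2 * a
  swap
  · push Not at hlong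
    exact ⟨a, ha0, fun x hx y hy h => (hall x hx y hy h).resolve_right (hlong x hx y hy h)⟩
  exfalso
  obtain ⟨i0, hi0, k0, hk0, hik0, hl0⟩ := hlong
  have hex : ∀ j ∈ Y, ∃ l ∈ Y, j ≠ l ∧ dq j l = 2 * a := by
    intro j hj
    by_cases h1 : i0 = j
    · exact ⟨k0, hk0, by rw [← h1]; exact hik0, by rw [← h1]; exact hl0⟩
    rcases hall i0 hi0 j hj h1 with h2 | h2
    · obtain ⟨h3, h4⟩ := F.move T ha0 hall hi0 hk0 hj hik0 hl0 h1 h2
      refine ⟨_, h3, ?_, h4⟩
      intro h5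
      rw [← h5] at h4
      unfold dq at h4
      rw [sub_self, inner_zero_left] at h4
      linarith
    · exact ⟨i0, hi0, Ne.symm h1, by rw [dq_comm]; exact h2⟩
  have huniq : ∀ i ∈ Y, ∀ k ∈ Y, ∀ k' ∈ Y, i ≠ k → i ≠ k' → dq i k = 2 * a → dq i k' = 2 * a → k = k' := by
    intro i hi k hk k' hk' hik hik' h1 h2
    by_contra hkk
    have h3 := F.long_trans T ha0 hall hi hk hk' hik hik' hkk h1 h2
    obtain ⟨j, hj, hij, h4⟩ := hN i hi
    obtain ⟨hkj, h5⟩ := F.short_of_long T ha0 hall hi hk hj hik h1 hij h4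
    obtain ⟨hkj', h5'⟩ := F.short_of_long T ha0 hall hi hk' hj hik' h2 hij h4
    obtain ⟨hl, h6⟩ := F.move T ha0 hall hi hk hj hik h1 hij h4
    obtain ⟨l, hldef⟩ : ∃ l, l = k + i - j := ⟨_, rfl⟩
    rw [← hldef] at hl h6
    have hlk : l - k = i - j := by rw [hldef]; abel
    have hlk' : l ≠ k := by
      intro h
      rw [h, sub_self] at hlk
      exact hij (sub_eq_zero.1 hlk.symm)
    have hjl : j ≠ l := by
      intro h5
      rw [← h5] at h6
      unfold dq at h6
      rw [sub_self, inner_zero_left] at h6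
      linarith
    have hlk2 : l ≠ k' := by
      intro h
      rw [h, dq_comm, h5'] at h6
      linarith
    have h7 : dq l k' = a := by
      rcases hall l hl k' hk' hlk2 with h | h
      · exact h
      · exfalso
        have := F.long_trans T ha0 hall hl hj hk' hjl.symm hlk2 hkj'.symm (by rw [dq_comm]; exact h6) h
        rw [dq_comm, h5'] at this
        linarith
    have h8 : dq l k = a := by
      unfold dq at h4 ⊢
      rw [hlk]
      exact h4
    obtain ⟨m, hm, -, hm2⟩ := F.pair T hi hj hk' hij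
    obtain ⟨m', hm', -, hm2'⟩ := F.pair T hl hk hk' hlk'
    rw [dq_comm j k', h5', h2, h4] at hm
    rw [h3, h7, h8] at hm'
    rw [hlk, hm2] at hm2'
    rw [hm2'] at hm
    have : (1 : ℝ) * a = 0 := by linarith
    linarith
  choose! g hg1 hg2 hg3 using hex
  have hsum : ∑ x ∈ Y, (1 : ZMod 2) = 0 := by
    refine Finset.sum_involution (fun x _ => g x) ?_ ?_ ?_ ?_
    · intro x hx
      decide
    · intro x hx _
      exact (hg2 x hx).symm
    · intro x hx
      exact hg1 x hx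
    · intro x hx
      exact huniq (g x) (hg1 x hx) (g (g x)) (hg1 _ (hg1 x hx)) x hx (hg2 _ (hg1 x hx)) (hg2 x hx).symm
        (hg3 _ (hg1 x hx)) (by rw [dq_comm]; exact hg3 x hx)
  rw [Finset.sum_const, nsmul_eq_mul, mul_one] at hsum
  have h1 : Even Y.card := by
    rw [even_iff_two_dvd]
    exact (ZMod.natCast_eq_zero_iff _ _).1 hsum
  exact (Nat.not_even_iff_odd.2 hodd) h1

end caseA

end PG
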