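import Pool.Agent.Helper94.PG.Config

/-!
Project PG (MP_b8862a_ag), block H1, second part: counting.
-/

set_option linter.unusedSectionVars false
set_option linter.unusedVariables false

namespace PG

open PF

variable {E : Type*} [NormedAddCommGroup E] [InnerProductSpace ℝ E]

/-- An enumeration of a finite set. -/
theorem exists_enum (Y : Finset E) : ∃ ν : ℕ → E, (∀ i < Y.card, ν i ∈ Y) ∧
    (∀ i < Y.card, ∀ j < Y.card, ν i = ν j → i = j) ∧ ∀ y ∈ Y, ∃ i < Y.card, ν i = y := by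
  classical
  refine ⟨fun i => if h : i < Y.card then (Y.equivFin.symm ⟨i, h⟩ : E) else 0, ?_, ?_, ?_⟩
  · intro i hi
    simp only [hi, dif_pos]
    exact Finset.coe_mem _
  · intro i hi j hj h
    simp only [hi, hj, dif_pos] at h
    have h1 := Y.equivFin.symm.injective (Subtype.ext h)
    exact congrArg Fin.val h1
  · intro y hy
    refine ⟨(Y.equivFin ⟨y, hy⟩).1, (Y.equivFin ⟨y, hy⟩).2, ?_⟩
    simp

section count

open Classical in
/-- the roots with positive pairing with `lam` -/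
noncomputable def PP (Φ : Finset E) (lam : E) : Finset E := Φ.filter fun g => 1 ≤ co g lam

open Classical in
noncomputable def PP2 (Φ : Finset E) (lam : E) : Finset E := Φ.filter fun g => co g lam = 2

variable {Φ Y : Finset E} (T : Top Φ Y)
include T

theorem Top.one_or_two {g lam : E} (hg : g ∈ Φ) (hl : lam ∈ Y) (h : 1 ≤ co g lam) : co g lam = 1 ∨ co g lam = 2 := by
  obtain ⟨k, hk⟩ := T.intY g hg lam hl
  have h2 := T.le2 g hg lam hl
  rw [hk] at h h2 ⊢
  have h3 : 1 ≤ k := by exact_mod_cast h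
  have h4 : k ≤ 2 := by exact_mod_cast h2
  have : k = 1 ∨ k = 2 := by omega
  rcases this with rfl | rfl
  · left; norm_num
  · right; norm_num

theorem Top.count {lam a : E} {s : ℕ} (hlam : lam ∈ Y) (ha : a ∈ Φ) (h1 : 1 ≤ co a lam) (hYs : Y.card ≤ s)
    (hs : (s : ℝ) ≤ co a lam + ((PP Φ lam).card : ℝ)) :
    Y.card = s ∧ (∀ y ∈ Y, y = lam ∨ (∃ g ∈ Φ, 1 ≤ co g lam ∧ y = lam - g) ∨
      ∃ g ∈ Φ, co g lam = 2 ∧ y = lam - (2 : ℝ) • g) ∧
      ((∀ g ∈ Φ, co g lam ≤ 1) ∨ (co a lam = 2 ∧ ∀ g ∈ Φ, co g lam = 2 → g = a)) := by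
  classical
  have hPP : ∀ g, g ∈ PP Φ lam ↔ g ∈ Φ ∧ 1 ≤ co g lam := by
    intro g
    simp [PP]
  have hPP2 : ∀ g, g ∈ PP2 Φ lam ↔ g ∈ Φ ∧ co g lam = 2 := by
    intro g
    simp [PP2]
  obtain ⟨Z, hZ⟩ : ∃ Z : Finset E, Z = {lam} ∪ (PP Φ lam).image (fun g => lam - g) ∪
    (PP2 Φ lam).image (fun g => lam - (2 : ℝ) • g) := ⟨_, rfl⟩
  have hmem : ∀ y, y ∈ Z ↔ y = lam ∨ (∃ g ∈ Φ, 1 ≤ co g lam ∧ y = lam - g) ∨
      ∃ g ∈ Φ, co g lam = 2 ∧ y = lam - (2 : ℝ) • g := by
    intro y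
    rw [hZ]
    simp only [Finset.mem_union, Finset.mem_singleton, Finset.mem_image, hPP, hPP2]
    constructor
    · rintro ((h | ⟨g, ⟨h2, h3⟩, rfl⟩) | ⟨g, ⟨h2, h3⟩, rfl⟩)
      · exact Or.inl h
      · exact Or.inr (Or.inl ⟨g, h2, h3, rfl⟩)
      · exact Or.inr (Or.inr ⟨g, h2, h3, rfl⟩)
    · rintro (h | ⟨g, h2, h3, rfl⟩ | ⟨g, h2, h3, rfl⟩)
      · exact Or.inl (Or.inl h)
      · exact Or.inl (Or.inr ⟨g, ⟨h2, h3⟩, rfl⟩)
      · exact Or.inr ⟨g, ⟨h2, h3⟩, rfl⟩
  have hsub : Z ⊆ Y := by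
    intro y hy
    rcases (hmem y).1 hy with rfl | ⟨g, h2, h3, rfl⟩ | ⟨g, h2, h3, rfl⟩
    · exact hlam
    · have := T.str g h2 lam hlam 1 (by push_cast; exact h3)
      simpa using this
    · have := T.str g h2 lam hlam 2 (by push_cast; rw [h3])
      simpa using this
  have hcard : Z.card = 1 + (PP Φ lam).card + (PP2 Φ lam).card := by
    rw [hZ, Finset.card_union_of_disjoint, Finset.card_union_of_disjoint, Finset.card_singleton,
      Finset.card_image_of_injective, Finset.card_image_of_injective]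
    · intro x y h
      have h2 : (2 : ℝ) • x = (2 : ℝ) • y := sub_right_injective h
      exact smul_right_injective E (two_ne_zero (α := ℝ)) h2
    · intro x y h
      exact sub_right_injective h
    · rw [Finset.disjoint_left]
      intro y hy hy2
      rw [Finset.mem_singleton] at hy
      rw [Finset.mem_image] at hy2
      obtain ⟨g, hg, h2⟩ := hy2
      rw [hPP] at hg
      rw [hy] at h2
      exact T.ne_zero g hg.1 (by simpa using h2)
    · rw [Finset.disjoint_left]
      intro y hy hy2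
      rw [Finset.mem_image] at hy2
      obtain ⟨g, hg, h2⟩ := hy2
      rw [hPP2] at hg
      rw [Finset.mem_union, Finset.mem_singleton, Finset.mem_image] at hy
      rcases hy with h3 | ⟨g', hg', h3⟩
      · rw [h3] at h2
        have h4 : (2 : ℝ) • g = 0 := by simpa using h2
        exact T.ne_zero g hg.1 ((smul_eq_zero.1 h4).resolve_left two_ne_zero)
      · rw [← h3] at h2
        have h4 : (2 : ℝ) • g = g' := sub_right_injective h2
        rw [hPP] at hg'
        rcases T.red g hg.1 2 (by rw [h4]; exact hg'.1) with h5 | h5 <;> norm_num at h5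
  have hZY := Finset.card_le_card hsub
  rcases T.one_or_two ha hlam h1 with h2 | h2
  · rw [h2] at hs
    have h3 : s ≤ 1 + (PP Φ lam).card := by exact_mod_cast hs
    have h4 : (PP2 Φ lam).card = 0 := by omega
    have h5 : Y.card = s := by omega
    have h6 : Z = Y := Finset.eq_of_subset_of_card_le hsub (by omega)
    refine ⟨h5, ?_, Or.inl ?_⟩
    · intro y hy
      rw [← h6] at hy
      exact (hmem y).1 hy
    · intro g hg
      by_contra h7
      push Not at h7
      rcases T.one_or_two hg hlam h7.le with h8 | h8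
      · rw [h8] at h7
        exact lt_irrefl _ h7
      · rw [Finset.card_eq_zero] at h4
        have h9 : g ∈ PP2 Φ lam := (hPP2 g).2 ⟨hg, h8⟩
        rw [h4] at h9
        simp at h9
  · rw [h2] at hs
    have h3 : s ≤ 2 + (PP Φ lam).card := by exact_mod_cast hs
    have ha2 : a ∈ PP2 Φ lam := (hPP2 a).2 ⟨ha, h2⟩
    have h4 : 1 ≤ (PP2 Φ lam).card := Finset.card_pos.2 ⟨a, ha2⟩
    have h5 : Y.card = s := by omega
    have h6 : Z = Y := Finset.eq_of_subset_of_card_le hsub (by omega)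
    have h7 : (PP2 Φ lam).card = 1 := by omega
    refine ⟨h5, ?_, Or.inr ⟨h2, ?_⟩⟩
    · intro y hy
      rw [← h6] at hy
      exact (hmem y).1 hy
    · intro g hg h8
      obtain ⟨c, hc⟩ := Finset.card_eq_one.1 h7
      have h9 : g ∈ PP2 Φ lam := (hPP2 g).2 ⟨hg, h8⟩
      rw [hc, Finset.mem_singleton] at h9 ha2
      rw [h9, ha2]

end count

section one

variable {Φ Y : Finset E} (T : Top Φ Y)
include T

/-- The case of pairings at most one. -/
theorem Top.flat {lam : E} (hlam : lam ∈ Y) (hY : ∀ y ∈ Y, y = lam ∨ (∃ g ∈ Φ, 1 ≤ co g lam ∧ y = lam - g) ∨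
      ∃ g ∈ Φ, co g lam = 2 ∧ y = lam - (2 : ℝ) • g) (h1 : ∀ g ∈ Φ, co g lam ≤ 1) : Flat Φ Y := by
  have hY' : ∀ y ∈ Y, y ≠ lam → lam - y ∈ Φ ∧ co (lam - y) lam = 1 := by
    intro y hy hne
    rcases hY y hy with h | ⟨g, hg, h2, rfl⟩ | ⟨g, hg, h2, rfl⟩
    · exact absurd h hne
    · have h3 : lam - (lam - g) = g := by abel
      rw [h3]
      exact ⟨hg, le_antisymm (h1 g hg) h2⟩
    · have := h1 g hg
      rw [h2] at this
      norm_num at this
  have horb : ∀ y ∈ Y, y = lam ∨ ∃ g ∈ Φ, y = rf g lam := by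
    intro y hy
    by_cases h : y = lam
    · exact Or.inl h
    · right
      obtain ⟨h2, h3⟩ := hY' y hy h
      refine ⟨lam - y, h2, ?_⟩
      unfold rf
      rw [h3]
      module
  constructor
  · intro x hx y hy hxy
    rcases horb x hx with rfl | ⟨g, hg, rfl⟩
    · exact hY' y hy hxy.symm
    · have hg0 := T.ne_zero g hg
      have h2 : rf g y ≠ lam := by
        intro h
        apply hxy
        rw [← h, rf_rf hg0]
      obtain ⟨h3, h4⟩ := hY' (rf g y) (T.rfY hg hy) h2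
      have h5 : rf g (lam - rf g y) = rf g lam - y := by
        rw [rf_sub, rf_rf hg0]
      rw [← h5]
      exact ⟨T.rf_mem hg h3, by rw [co_rf hg0]; exact h4⟩
  · intro g hg x hx
    rcases horb x hx with rfl | ⟨h, hh, rfl⟩
    · exact h1 g hg
    · have hh0 := T.ne_zero h hh
      have h2 := co_rf hh0 (rf h g) lam
      rw [rf_rf hh0] at h2
      rw [h2]
      exact h1 _ (T.rf_mem hh hg)

/-- Type `A`. -/
theorem Top.typeA (F : Flat Φ Y) (hodd : Odd Y.card) {ν : ℕ → E} (h1 : ∀ i < Y.card, ν i ∈ Y)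
    (h2 : ∀ i < Y.card, ∀ j < Y.card, ν i = ν j → i = j) : IsA Φ Y.card ν := by
  obtain ⟨l, hl, hall⟩ := F.equi T hodd
  refine ⟨l, hl, ?_⟩
  intro i hi j hj hij
  have hne : ν i ≠ ν j := fun h => hij (h2 i hi j hj h)
  refine ⟨(F.root _ (h1 i hi) _ (h1 j hj) hne).1, hall _ (h1 i hi) _ (h1 j hj) hne, ?_⟩
  intro k hk
  rw [F.inner_eq T (h1 i hi) (h1 j hj) (h1 k hk)]
  have hself : ∀ x : E, dq x x = 0 := by
    intro x
    unfold dq
    rw [sub_self, inner_zero_left]
  have hd : ∀ m < Y.card, dq (ν m) (ν k) = if k = m then 0 else l := by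
    intro m hm
    split_ifs with h
    · rw [h, hself]
    · exact hall _ (h1 m hm) _ (h1 k hk) (fun h3 => h (h2 m hm k hk h3).symm)
  rw [hd i hi, hd j hj]
  split_ifs with h3 h4 h4
  · exact absurd (by omega) hij
  · ring
  · ring
  · ring

end one

end PG
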