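import Pool.Agent.Helper94.PG.Config2
import Pool.Agent.Helper2.PG.End

/-!
Project PG (MP_b8862a_ag), block H1, third part: type `B`, and the theorem.
-/

set_option linter.unusedSectionVars false
set_option linter.unusedVariables false

namespace PG

open PF

variable {E : Type*} [NormedAddCommGroup E] [InnerProductSpace ℝ E]

theorem inner_of_co {a : E} (ha : a ≠ 0) (x : E) : (inner ℝ x a : ℝ) = co a x * inner ℝ a a / 2 := inner_eq ha x

theorem rf_eq_of_inner {g x : E} (h : (inner ℝ x g : ℝ) = 0) : rf g x = x := by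
  unfold rf co
  rw [h]
  simp

section two

variable {Φ Y : Finset E} (T : Top Φ Y)

/-- The data of the second case. -/
structure Two (Φ Y : Finset E) (lam a : E) : Prop where
  hlam : lam ∈ Y
  ha : a ∈ Φ
  h2 : co a lam = 2
  huni : ∀ g ∈ Φ, co g lam = 2 → g = a
  hY : ∀ y ∈ Y, y = lam ∨ (∃ g ∈ Φ, 1 ≤ co g lam ∧ y = lam - g) ∨
      ∃ g ∈ Φ, co g lam = 2 ∧ y = lam - (2 : ℝ) • g

variable {lam a : E} (D : Two Φ Y lam a)
include T D

theorem Two.tau_mem : lam - a ∈ Y := by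
  have := T.str a D.ha lam D.hlam 1 (by rw [D.h2]; norm_num)
  simpa using this

theorem Two.orb {y : E} (hy : y ∈ Y) (hne : y ≠ lam - a) : y = lam ∨ ∃ g ∈ Φ, y = rf g lam := by
  rcases D.hY y hy with h | ⟨g, hg, h2, rfl⟩ | ⟨g, hg, h2, rfl⟩
  · exact Or.inl h
  · rcases T.one_or_two hg D.hlam h2 with h3 | h3
    · right
      refine ⟨g, hg, ?_⟩
      unfold rf
      rw [h3, one_smul]
    · exact absurd (by rw [D.huni g hg h3]) hne
  · right
    refine ⟨g, hg, ?_⟩
    unfold rf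
    rw [h2]

theorem Two.tau_norm : (inner ℝ (lam - a) (lam - a) : ℝ) = inner ℝ lam lam - inner ℝ a a := by
  have h := inner_of_co (T.ne_zero a D.ha) lam
  rw [D.h2] at h
  rw [inner_sub_left, inner_sub_right, inner_sub_right, real_inner_comm lam a, h]
  ring

theorem Two.tau_fix {g : E} (hg : g ∈ Φ) : rf g (lam - a) = lam - a := by
  by_contra hne
  have h1 := T.rfY hg (D.tau_mem T)
  have h2 : (inner ℝ (rf g (lam - a)) (rf g (lam - a)) : ℝ) = inner ℝ lam lam := by
    rcases D.orb T h1 hne with h | ⟨k, hk, h⟩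
    · rw [h]
    · rw [h, inner_rf (T.ne_zero k hk)]
  rw [inner_rf (T.ne_zero g hg), D.tau_norm T] at h2
  have h3 : (0 : ℝ) < inner ℝ a a := real_inner_self_pos.2 (T.ne_zero a D.ha)
  linarith

theorem Two.tau_co {g : E} (hg : g ∈ Φ) : co g (lam - a) = 0 := by
  have h := D.tau_fix T hg
  unfold rf at h
  have h1 : co g (lam - a) • g = 0 := by
    have h2 : lam - a - co g (lam - a) • g = lam - a - 0 := by rw [h, sub_zero]
    exact sub_right_injective h2
  exact (smul_eq_zero.1 h1).resolve_right (T.ne_zero g hg)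

theorem Two.tau_inner {g : E} (hg : g ∈ Φ) : (inner ℝ (lam - a) g : ℝ) = 0 := by
  rw [inner_of_co (T.ne_zero g hg), D.tau_co T hg]
  ring

/-- nonzero differences with `τ` -/
theorem Two.conj {e : E} (he : lam - a + e ∈ Y) (h0 : e ≠ 0) : e = a ∨ ∃ g ∈ Φ, e = rf g a := by
  have hne : lam - a + e ≠ lam - a := by
    intro h
    exact h0 (by simpa using h)
  rcases D.orb T he hne with h | ⟨g, hg, h⟩
  · left
    have : lam - a + e = lam - a + a := by rw [h]; abel
    exact add_left_cancel this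
  · right
    refine ⟨g, hg, ?_⟩
    have h1 : rf g lam = rf g (lam - a) + rf g a := by
      rw [← rf_add]
      congr 1
      abel
    rw [h1, D.tau_fix T hg] at h
    exact add_left_cancel h

theorem Two.mem {e : E} (he : lam - a + e ∈ Y) (h0 : e ≠ 0) : e ∈ Φ ∧ (inner ℝ e e : ℝ) = inner ℝ a a := by
  rcases D.conj T he h0 with rfl | ⟨g, hg, rfl⟩
  · exact ⟨D.ha, rfl⟩
  · exact ⟨T.rf_mem hg D.ha, inner_rf (T.ne_zero g hg) a a⟩

theorem Two.neg_mem {e : E} (he : lam - a + e ∈ Y) (h0 : e ≠ 0) : lam - a + -e ∈ Y := by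
  obtain ⟨h1, -⟩ := D.mem T he h0
  have h2 : co e (lam - a + e) = 2 := by
    rw [co_add, D.tau_co T h1, co_self' h0]
    ring
  have h3 := T.str e h1 _ he 2 (by rw [h2]; norm_num)
  have h4 : lam - a + e - ((2 : ℕ) : ℝ) • e = lam - a + -e := by
    push_cast
    module
  rwa [h4] at h3

theorem Two.sub_root {e : E} (he : lam - a + e ∈ Y) (h0 : e ≠ 0) (h1 : e ≠ a) (h2 : e ≠ -a) : a - e ∈ Φ := by
  rcases D.hY _ he with h | ⟨g, hg, h3, h⟩ | ⟨g, hg, h3, h⟩
  · exfalso
    apply h1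
    have : lam - a + e = lam - a + a := by rw [h]; abel
    exact add_left_cancel this
  · have h4 : g = a - e := by
      have h5 : lam - g = lam - (a - e) := by rw [← h]; abel
      exact sub_right_injective h5
    rw [← h4]
    exact hg
  · exfalso
    apply h2
    have h4 := D.huni g hg h3
    rw [h4] at h
    have : lam - a + e = lam - a + -a := by
      rw [h]
      module
    exact add_left_cancel this

theorem Two.ortho_a {e : E} (he : lam - a + e ∈ Y) (h0 : e ≠ 0) (h1 : e ≠ a) (h2 : e ≠ -a) :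
    (inner ℝ a e : ℝ) = 0 ∧ a + e ∈ Φ := by
  have ha0 := T.ne_zero a D.ha
  have hl : (0 : ℝ) < inner ℝ a a := real_inner_self_pos.2 ha0
  obtain ⟨heΦ, hel⟩ := D.mem T he h0
  have h3 := D.sub_root T he h0 h1 h2
  have h4 := D.sub_root T (D.neg_mem T he h0) (neg_ne_zero.2 h0) (fun h => h2 (by rw [← h, neg_neg]))
    (fun h => h1 (neg_injective h))
  have h4' : a - -e = a + e := by abel
  rw [h4'] at h4
  refine ⟨?_, h4⟩
  obtain ⟨k, hk⟩ := T.int a D.ha e heΦ
  have h5 := inner_of_co ha0 e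
  rw [hk, real_inner_comm] at h5
  have h6 : (0 : ℝ) < inner ℝ (a - e) (a - e) := real_inner_self_pos.2 (T.ne_zero _ h3)
  have h7 : (0 : ℝ) < inner ℝ (a + e) (a + e) := real_inner_self_pos.2 (T.ne_zero _ h4)
  rw [inner_sub_left, inner_sub_right, inner_sub_right, real_inner_comm a e, hel] at h6
  rw [inner_add_left, inner_add_right, inner_add_right, real_inner_comm a e, hel] at h7
  have h8 : k ≠ 1 := by
    rintro rfl
    apply T.no3 a D.ha (a + e) h4
    rw [co_add, co_self' ha0, hk]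
    norm_num
  have h9 : k ≠ -1 := by
    rintro rfl
    apply T.no3 a D.ha (a - e) h3
    rw [co_sub, co_self' ha0, hk]
    norm_num
  have h10 : k < 2 := by
    by_contra h
    push Not at h
    have : (2 : ℝ) ≤ k := by exact_mod_cast h
    nlinarith
  have h11 : -2 < k := by
    by_contra h
    push Not at h
    have : (k : ℝ) ≤ -2 := by exact_mod_cast h
    nlinarith
  have h12 : k = 0 := by omega
  rw [h5, h12]
  simp

theorem Two.ortho {e e' : E} (he : lam - a + e ∈ Y) (h0 : e ≠ 0) (he' : lam - a + e' ∈ Y) (h0' : e' ≠ 0)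
    (h1 : e ≠ e') (h2 : e ≠ -e') : (inner ℝ e e' : ℝ) = 0 ∧ e + e' ∈ Φ := by
  rcases D.conj T he h0 with rfl | ⟨g, hg, rfl⟩
  · exact D.ortho_a T he' h0' h1.symm (fun h => h2 (by rw [h, neg_neg]))
  · have hg0 := T.ne_zero g hg
    have h3 : lam - a + rf g e' ∈ Y := by
      have := T.rfY hg he'
      rwa [rf_add, D.tau_fix T hg] at this
    have h4 : rf g e' ≠ 0 := by
      intro h
      apply h0'
      rw [← rf_rf hg0 e', h]
      unfold rf co
      simp
    obtain ⟨h5, h6⟩ := D.ortho_a T h3 h4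
      (fun h => h1 (by rw [← h, rf_rf hg0])) (fun h => h2 (by
        have h7 : a = -rf g e' := by rw [h, neg_neg]
        rw [h7, rf_neg, rf_rf hg0]))
    constructor
    · have := inner_rf hg0 a (rf g e')
      rw [rf_rf hg0] at this
      rw [this, h5]
    · have := T.rf_mem hg h6
      rwa [rf_add, rf_rf hg0] at this

/-- Type `B`. -/
theorem Two.typeB (h5 : 5 ≤ Y.card) : ∃ ν : ℕ → E, (∀ i < Y.card, ν i ∈ Y) ∧
    (∀ i < Y.card, ∀ j < Y.card, ν i = ν j → i = j) ∧ (∀ y ∈ Y, ∃ i < Y.card, ν i = y) ∧ IsB Φ Y.card ν := by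
  classical
  obtain ⟨τ, hτ⟩ : ∃ τ, τ = lam - a := ⟨_, rfl⟩
  have hτY : τ ∈ Y := by
    rw [hτ]
    exact D.tau_mem T
  obtain ⟨F, hF⟩ : ∃ F : Finset E, F = (Y.erase τ).image (fun y => y - τ) := ⟨_, rfl⟩
  have hFm : ∀ e, e ∈ F ↔ τ + e ∈ Y ∧ e ≠ 0 := by
    intro e
    rw [hF, Finset.mem_image]
    constructor
    · rintro ⟨y, hy, rfl⟩
      rw [Finset.mem_erase] at hy
      exact ⟨by simpa using hy.2, sub_ne_zero.2 hy.1⟩
    · rintro ⟨h1, h2⟩
      exact ⟨τ + e, Finset.mem_erase.2 ⟨by simpa using h2, h1⟩, by simp⟩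
  have hFcard : F.card + 1 = Y.card := by
    rw [hF, Finset.card_image_of_injective _ (fun x y h => sub_left_injective h), Finset.card_erase_add_one hτY]
  have hFneg : ∀ e ∈ F, -e ∈ F := by
    intro e he
    rw [hFm] at he ⊢
    rw [hτ] at he ⊢
    exact ⟨D.neg_mem T he.1 he.2, neg_ne_zero.2 he.2⟩
  have hne : ∀ e ∈ F, e ≠ -e := by
    intro e he h
    apply ((hFm e).1 he).2
    have h1 : (2 : ℝ) • e = 0 := by
      rw [two_smul]
      nth_rewrite 1 [h]
      simp
    exact (smul_eq_zero.1 h1).resolve_left two_ne_zero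
  obtain ⟨R, hR⟩ : ∃ R : Finset E, R = F.filter fun e => WellOrderingRel e (-e) := ⟨_, rfl⟩
  have hRm : ∀ e, e ∈ R ↔ e ∈ F ∧ WellOrderingRel e (-e) := by
    intro e
    rw [hR, Finset.mem_filter]
  have hcases : ∀ e ∈ F, e ∈ R ∨ -e ∈ R := by
    intro e he
    rcases trichotomous_of (WellOrderingRel (α := E)) e (-e) with h | h | h
    · exact Or.inl ((hRm e).2 ⟨he, h⟩)
    · exact absurd h (hne e he)
    · right
      rw [hRm, neg_neg]
      exact ⟨hFneg e he, h⟩
  have hnot : ∀ e, e ∈ R → -e ∉ R := by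
    intro e he he'
    rw [hRm] at he he'
    rw [neg_neg] at he'
    exact asymm_of WellOrderingRel he.2 he'.2
  have hFR : F = R ∪ R.image (fun e => -e) := by
    ext e
    rw [Finset.mem_union, Finset.mem_image]
    constructor
    · intro he
      rcases hcases e he with h | h
      · exact Or.inl h
      · exact Or.inr ⟨-e, h, neg_neg e⟩
    · rintro (h | ⟨x, hx, rfl⟩)
      · exact ((hRm e).1 h).1
      · exact hFneg x ((hRm x).1 hx).1
  have hFcard2 : F.card = 2 * R.card := by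
    rw [hFR, Finset.card_union_of_disjoint, Finset.card_image_of_injective _ neg_injective, two_mul]
    rw [Finset.disjoint_left]
    intro e he he'
    rw [Finset.mem_image] at he'
    obtain ⟨x, hx, rfl⟩ := he'
    exact hnot x hx he
  obtain ⟨r, hr⟩ : ∃ r, r = R.card := ⟨_, rfl⟩
  have hs : Y.card = 2 * r + 1 := by omega
  obtain ⟨e, he1, he2, he3⟩ := exists_enum R
  rw [← hr] at he1 he2 he3
  have heR : ∀ i < r, e i ∈ F := fun i hi => ((hRm _).1 (he1 i hi)).1
  have heY : ∀ i < r, lam - a + e i ∈ Y ∧ e i ≠ 0 := by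
    intro i hi
    have := (hFm _).1 (heR i hi)
    rwa [hτ] at this
  have hne2 : ∀ i < r, ∀ j < r, e i ≠ -e j := by
    intro i hi j hj h
    exact hnot (e j) (he1 j hj) (by rw [← h]; exact he1 i hi)
  obtain ⟨ν, hν⟩ : ∃ ν : ℕ → E, ν = fun i => if i < r then τ + e i else if i = r then τ else τ - e (2 * r - i) :=
    ⟨_, rfl⟩
  have hν1 : ∀ i < r, ν i = τ + e i := by
    intro i hi
    rw [hν]
    simp only [hi, if_true]
  have hν2 : ν r = τ := by
    rw [hν]
    simp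
  have hν3 : ∀ i < r, ν (2 * r - i) = τ - e i := by
    intro i hi
    rw [hν]
    have h1 : ¬ (2 * r - i < r) := by omega
    have h2 : ¬ (2 * r - i = r) := by omega
    have h3 : 2 * r - (2 * r - i) = i := by omega
    simp only [h1, h2, if_false, h3]
  have hidx : ∀ i < Y.card, (i < r ∧ ν i = τ + e i) ∨ (i = r ∧ ν i = τ) ∨
      ∃ k < r, i = 2 * r - k ∧ ν i = τ - e k := by
    intro i hi
    rcases lt_trichotomy i r with h | h | h
    · exact Or.inl ⟨h, hν1 i h⟩
    · exact Or.inr (Or.inl ⟨h, by rw [h]; exact hν2⟩)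
    · right; right
      refine ⟨2 * r - i, by omega, by omega, ?_⟩
      have h1 := hν3 (2 * r - i) (by omega)
      have h2 : 2 * r - (2 * r - i) = i := by omega
      rwa [h2] at h1
  have h0 : ∀ i < r, e i ≠ 0 := fun i hi => (heY i hi).2
  refine ⟨ν, ?_, ?_, ?_, r, τ, e, inner ℝ a a, by omega, hs, real_inner_self_pos.2 (T.ne_zero a D.ha), ?_, ?_, ?_,
    ?_, hν1, hν2, hν3⟩
  · intro i hi
    rcases hidx i hi with ⟨h1, h2⟩ | ⟨h1, h2⟩ | ⟨k, hk, h1, h2⟩
    · rw [h2]
      exact ((hFm _).1 (heR i h1)).1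
    · rw [h2]
      exact hτY
    · rw [h2]
      have := ((hFm _).1 (hFneg _ (heR k hk))).1
      rwa [← sub_eq_add_neg] at this
  · intro i hi j hj hij
    rcases hidx i hi with ⟨h1, h2⟩ | ⟨h1, h2⟩ | ⟨k, hk, h1, h2⟩ <;>
      rcases hidx j hj with ⟨h1', h2'⟩ | ⟨h1', h2'⟩ | ⟨k', hk', h1', h2'⟩ <;> rw [h2, h2'] at hij
    · exact he2 i h1 j h1' (add_left_cancel hij)
    · exact absurd (by simpa using hij) (h0 i h1)
    · exact absurd (by
        have : τ + e i = τ + -e k' := by rw [hij]; abel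
        exact add_left_cancel this) (hne2 i h1 k' hk')
    · exact absurd (by simpa using hij.symm) (h0 j h1')
    · omega
    · exact absurd (by simpa using hij.symm) (h0 k' hk')
    · exact absurd (by
        have : τ + e j = τ + -e k := by rw [← hij]; abel
        exact add_left_cancel this) (hne2 j h1' k hk)
    · exact absurd (by simpa using hij) (h0 k hk)
    · have := he2 k hk k' hk' (sub_right_injective hij)
      omega
  · intro y hy
    by_cases h : y = τ
    · exact ⟨r, by omega, by rw [hν2, h]⟩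
    have h1 : y - τ ∈ F := (hFm _).2 ⟨by simpa using hy, sub_ne_zero.2 h⟩
    rcases hcases _ h1 with h2 | h2
    · obtain ⟨i, hi, h3⟩ := he3 _ h2
      refine ⟨i, by omega, ?_⟩
      rw [hν1 i hi, h3]
      abel
    · obtain ⟨i, hi, h3⟩ := he3 _ h2
      refine ⟨2 * r - i, by omega, ?_⟩
      rw [hν3 i hi, h3]
      abel
  · intro i hi j hj
    split_ifs with h
    · rw [h]
      exact (D.mem T (heY j hj).1 (heY j hj).2).2
    · exact (D.ortho T (heY i hi).1 (heY i hi).2 (heY j hj).1 (heY j hj).2 (fun h1 => h (he2 i hi j hj h1))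
        (hne2 i hi j hj)).1
  · intro i hi
    rw [hτ]
    exact D.tau_inner T (D.mem T (heY i hi).1 (heY i hi).2).1
  · intro i hi
    have := (D.mem T (heY i hi).1 (heY i hi).2).1
    exact ⟨this, T.neg this⟩
  · intro i hi j hj hij
    have h1 : e i ≠ e j := fun h => hij (he2 i hi j hj h)
    have h2 := D.ortho T (heY i hi).1 (heY i hi).2 (heY j hj).1 (heY j hj).2 h1 (hne2 i hi j hj)
    have h3 := D.ortho T (heY i hi).1 (heY i hi).2 (D.neg_mem T (heY j hj).1 (heY j hj).2)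
      (neg_ne_zero.2 (heY j hj).2) (hne2 i hi j hj) (by rw [neg_neg]; exact h1)
    exact ⟨h2.2, by rw [sub_eq_add_neg]; exact h3.2, T.neg h2.2⟩

/-- Type `B` with three weights. -/
theorem Two.typeB1 (h3 : Y.card = 3) : ∃ ν : ℕ → E, (∀ i < 3, ν i ∈ Y) ∧
    (∀ i < 3, ∀ j < 3, ν i = ν j → i = j) ∧ (∀ y ∈ Y, ∃ i < 3, ν i = y) ∧ IsB1 Φ ν := by
  classical
  have ha0 := T.ne_zero a D.ha
  obtain ⟨ν, hν⟩ : ∃ ν : ℕ → E, ν = fun i : ℕ => lam - (i : ℝ) • a := ⟨_, rfl⟩
  have h0 : ν 0 = lam := by rw [hν]; simp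
  have h1 : ν 1 = lam - a := by rw [hν]; simp
  have h2 : ν 2 = lam - (2 : ℝ) • a := by rw [hν]; simp
  have hinj : Function.Injective ν := by
    intro i j hij
    rw [hν] at hij
    have h4 : (i : ℝ) • a = (j : ℝ) • a := sub_right_injective hij
    have h5 := smul_left_injective ℝ ha0 h4
    exact_mod_cast h5
  have hmem : ∀ i < 3, ν i ∈ Y := by
    intro i hi
    rw [hν]
    exact T.str a D.ha lam D.hlam i (by
      rw [D.h2]
      exact_mod_cast (by omega : i ≤ 2))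
  have himg : (Finset.range 3).image ν = Y := by
    apply Finset.eq_of_subset_of_card_le
    · intro y hy
      rw [Finset.mem_image] at hy
      obtain ⟨i, hi, rfl⟩ := hy
      exact hmem i (Finset.mem_range.1 hi)
    · rw [Finset.card_image_of_injective _ hinj, Finset.card_range, h3]
  refine ⟨ν, hmem, fun i _ j _ h => hinj h, ?_, lam - a, a, inner ℝ a a, real_inner_self_pos.2 ha0, rfl,
    D.tau_inner T D.ha, D.ha, T.neg D.ha, ?_, h1, ?_⟩
  · intro y hy
    rw [← himg, Finset.mem_image] at hy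
    obtain ⟨i, hi, h⟩ := hy
    exact ⟨i, Finset.mem_range.1 hi, h⟩
  · rw [h0]
    abel
  · rw [h2]
    module

end two

/-- **The configuration of the top level**, for all odd numbers of weights but one. -/
theorem config_all {Φ Y : Finset E} (T : Top Φ Y) {lam a : E} {s : ℕ} (hlam : lam ∈ Y) (ha : a ∈ Φ)
    (h1 : 1 ≤ co a lam) (hYs : Y.card ≤ s) (hs : (s : ℝ) ≤ co a lam + ((PP Φ lam).card : ℝ)) (hodd : Odd s)
    (h3 : 3 ≤ s) : Y.card = s ∧ ∃ ν : ℕ → E, (∀ i < s, ν i ∈ Y) ∧ (∀ i < s, ∀ j < s, ν i = ν j → i = j) ∧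
      (∀ y ∈ Y, ∃ i < s, ν i = y) ∧ (IsA Φ s ν ∨ (5 ≤ s ∧ IsB Φ s ν) ∨ (s = 3 ∧ IsB1 Φ ν)) := by
  obtain ⟨hcard, hY, hcase⟩ := T.count hlam ha h1 hYs hs
  subst hcard
  refine ⟨rfl, ?_⟩
  rcases hcase with h | ⟨h, huni⟩
  · obtain ⟨ν, h2, h3, h4⟩ := exists_enum Y
    exact ⟨ν, h2, h3, h4, Or.inl (T.typeA (T.flat hlam hY h) hodd h2 h3)⟩
  · by_cases h5 : 5 ≤ Y.card
    · obtain ⟨ν, h2, h3, h4, h6⟩ := Two.typeB T (⟨hlam, ha, h, huni, hY⟩ : Two Φ Y lam a) h5
      exact ⟨ν, h2, h3, h4, Or.inr (Or.inl ⟨h5, h6⟩)⟩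
    · have h6 : Y.card = 3 := by
        rcases hodd with ⟨k, hk⟩
        omega
      obtain ⟨ν, h2, h3, h4, h7⟩ := Two.typeB1 T (⟨hlam, ha, h, huni, hY⟩ : Two Φ Y lam a) h6
      rw [h6]
      exact ⟨ν, h2, h3, h4, Or.inr (Or.inr ⟨rfl, h7⟩)⟩

/-- **The configuration of the top level.** -/
theorem config {Φ Y : Finset E} (T : Top Φ Y) {lam a : E} {s : ℕ} (hlam : lam ∈ Y) (ha : a ∈ Φ)
    (h1 : 1 ≤ co a lam) (hYs : Y.card ≤ s) (hs : (s : ℝ) ≤ co a lam + ((PP Φ lam).card : ℝ)) (hodd : Odd s)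
    (h5 : 5 ≤ s) : ∃ ν : ℕ → E, (∀ i < s, ν i ∈ Y) ∧ (∀ i < s, ∀ j < s, ν i = ν j → i = j) ∧
      (∀ y ∈ Y, ∃ i < s, ν i = y) ∧ (IsA Φ s ν ∨ IsB Φ s ν) := by
  obtain ⟨hcard, hY, hcase⟩ := T.count hlam ha h1 hYs hs
  subst hcard
  rcases hcase with h | ⟨h, huni⟩
  · obtain ⟨ν, h2, h3, h4⟩ := exists_enum Y
    exact ⟨ν, h2, h3, h4, Or.inl (T.typeA (T.flat hlam hY h) hodd h2 h3)⟩
  · obtain ⟨ν, h2, h3, h4, h6⟩ := Two.typeB T (⟨hlam, ha, h, huni, hY⟩ : Two Φ Y lam a) h5
    exact ⟨ν, h2, h3, h4, Or.inr h6⟩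

end PG
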