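import Pool.Agent.Helper94.PF.Trans
import Pool.Agent.Helper14.PF.WGroup
import Pool.Agent.Helper88.MT.RootPart

/-!
Project PG, block P1, first half: the character formula evaluated at a root of unity.
-/

open Module AddMonoidAlgebra

set_option linter.unusedSectionVars false

namespace PF.W

variable {ι K M N : Type*} [Field K] [CharZero K] [AddCommGroup M] [Module K M] [AddCommGroup N] [Module K N]
  [Fintype ι] {P : RootPairing ι K M N}

/-- The evaluation homomorphism of an additive map and a character of the additive group of `K`. -/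
noncomputable def evz {A : Type*} [AddCommGroup A] (φ : Multiplicative K →* K) (f : A →+ K) :
    AddMonoidAlgebra K A →ₐ[K] K :=
  AddMonoidAlgebra.lift K K A (φ.comp (AddMonoidHom.toMultiplicative f))

theorem evz_single {A : Type*} [AddCommGroup A] (φ : Multiplicative K →* K) (f : A →+ K) (x : A) (c : K) :
    evz φ f (single x c) = c * φ (Multiplicative.ofAdd (f x)) := by
  rw [evz, AddMonoidAlgebra.lift_single]
  rfl

private theorem pos_flip9 [P.IsRootSystem] [P.IsCrystallographic] [P.IsReduced] (b : P.Base) :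
    pos b.flip = pos b := by
  classical
  ext i
  simp [pos, isPos_flip]

private theorem sg_inv9 [P.IsRootSystem] {g : (M ≃ₗ[K] M) × (N ≃ₗ[K] N)} (hg : g ∈ G P) :
    (sg g⁻¹ : K) = sg g := by
  have h1 : (sg g⁻¹ : K) * sg g = 1 := by
    rw [← sg_mul, inv_mul_cancel]
    simp [sg]
  rcases sg_sq hg with h | h <;> rw [h] at h1 ⊢
  · simpa using h1
  · linear_combination -h1

private theorem pairing_inv9 {g : (M ≃ₗ[K] M) × (N ≃ₗ[K] N)} (hg : g ∈ G P) (x : M) (y : N) :
    P.toLinearMap (g.1 x) y = P.toLinearMap x (g⁻¹.2 y) := by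
  have := pairing_inv (P := P) hg x (g⁻¹.2 y)
  rw [← this]
  congr 1
  change y = (g * g⁻¹).2 y
  rw [mul_inv_cancel]
  rfl

/-- The identity for the dual root system, evaluated by a character of the additive group of `K`. -/
theorem sum_evz [P.IsRootSystem] [P.IsCrystallographic] [P.IsReduced] (b : P.Base) [Fintype (G P)]
    (φ : Multiplicative K →* K) (μ : M) :
    ∑ g : G P, (sg g.1 : K) * φ (Multiplicative.ofAdd (P.toLinearMap (g.1.1 μ) (crho b))) =
      ∏ i ∈ pos b, (φ (Multiplicative.ofAdd (2⁻¹ * P.toLinearMap μ (P.coroot i))) -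
        φ (Multiplicative.ofAdd (-(2⁻¹ * P.toLinearMap μ (P.coroot i))))) := by
  classical
  let e : G P ≃ G P.flip :=
    { toFun := fun g => ⟨(g⁻¹).1.swap, swap_mem (g⁻¹).2⟩
      invFun := fun g => ⟨(g⁻¹).1.swap, swap_mem (P := P.flip) (g⁻¹).2⟩
      left_inv := fun g => by
        apply Subtype.ext
        simp
      right_inv := fun g => by
        apply Subtype.ext
        simp }
  let _ : Fintype (G P.flip) := Fintype.ofEquiv _ e
  have hd := congrArg (evz φ (P.toLinearMap μ).toAddMonoidHom) (denom (P := P.flip) b.flip)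
  rw [map_sum, ← e.sum_comp] at hd
  have hr : rho b.flip = crho b := by
    simp [rho, crho, pos_flip9]
  rw [delta, map_prod, pos_flip9] at hd
  simp only [map_sub, evz_single, hr] at hd
  convert hd.symm using 1
  · refine Finset.sum_congr rfl fun g _ => ?_
    have h1 : (sg (e g).1 : K) = sg g.1 := by
      change sg ((g⁻¹ : G P).1).swap = _
      rw [sg_swap (g⁻¹).2]
      exact sg_inv9 g.2
    rw [h1, pairing_inv9 g.2]
    rfl
  · refine Finset.prod_congr rfl fun i _ => ?_
    simp

theorem root_crho [P.IsCrystallographic] [P.IsReduced] (b : P.Base) (i : ι) :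
    P.toLinearMap (P.root i) (crho b) = (b.height i : K) := by
  have h := MTP.MF.root_rho2_height b i
  have h2 : MTP.MF.rho2 b = ∑ i ∈ pos b, P.coroot i := by
    unfold MTP.MF.rho2 pos
    rfl
  rw [h2] at h
  rw [crho, map_smul, smul_eq_mul]
  change 2⁻¹ * P.root' i _ = _
  rw [h]
  ring

/-- The evaluation of the character at a root of unity of prime order is zero. -/
theorem evz_zero [P.IsRootSystem] [P.IsCrystallographic] [P.IsReduced] (b : P.Base) [Fintype (G P)]
    (χ : AddMonoidAlgebra K M) {Λ : M} (hχ : delta b * χ = ∑ g : G P, single (g.1.1 Λ) (sg g.1 : K))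
    {p : ℕ} (hp : p.Prime) (hp2 : p ≠ 2) {i0 : ι} (hi0 : i0 ∈ pos b) {k0 : ℤ}
    (hk0 : P.toLinearMap Λ (P.coroot i0) = (k0 : K)) (hd : (p : ℤ) ∣ k0)
    (hht : ∀ i ∈ pos b, b.height i < p) {ζ : K} (hζ : IsPrimitiveRoot ζ p) {φ : Multiplicative K →* K}
    (hφ : ∀ n : ℤ, φ (Multiplicative.ofAdd (2⁻¹ * (n : K))) = ζ ^ n) :
    evz φ (P.toLinearMap.flip (crho b)).toAddMonoidHom χ = 0 := by
  classical
  have h1 := congrArg (evz φ (P.toLinearMap.flip (crho b)).toAddMonoidHom) hχ
  rw [map_mul, map_sum] at h1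
  have h2 : ∑ g : G P, evz φ (P.toLinearMap.flip (crho b)).toAddMonoidHom (single (g.1.1 Λ) (sg g.1 : K)) = 0 := by
    have h3 := sum_evz b φ Λ
    have h4 : ∑ g : G P, evz φ (P.toLinearMap.flip (crho b)).toAddMonoidHom (single (g.1.1 Λ) (sg g.1 : K)) =
        ∑ g : G P, (sg g.1 : K) * φ (Multiplicative.ofAdd (P.toLinearMap (g.1.1 Λ) (crho b))) := by
      refine Finset.sum_congr rfl fun g _ => ?_
      rw [evz_single]
      rfl
    rw [h4, h3]
    apply Finset.prod_eq_zero hi0
    rw [hk0, hφ]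
    have h5 : -(2⁻¹ * (k0 : K)) = 2⁻¹ * ((-k0 : ℤ) : K) := by
      push_cast
      ring
    rw [h5, hφ, (hζ.zpow_eq_one_iff_dvd k0).2 hd, (hζ.zpow_eq_one_iff_dvd (-k0)).2 ((dvd_neg).2 hd), sub_self]
  rw [h2] at h1
  refine (mul_eq_zero.1 h1).resolve_left ?_
  rw [delta, map_prod]
  refine Finset.prod_ne_zero_iff.2 ?_
  intro i hi
  rw [map_sub, evz_single, evz_single, one_mul, one_mul]
  have h6 : (P.toLinearMap.flip (crho b)).toAddMonoidHom ((2⁻¹ : K) • P.root i) = 2⁻¹ * (b.height i : K) := by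
    change P.toLinearMap ((2⁻¹ : K) • P.root i) (crho b) = _
    rw [map_smul, LinearMap.smul_apply, root_crho, smul_eq_mul]
  have h7 : (P.toLinearMap.flip (crho b)).toAddMonoidHom (-((2⁻¹ : K) • P.root i)) =
      2⁻¹ * ((-b.height i : ℤ) : K) := by
    rw [map_neg, h6]
    push_cast
    ring
  rw [h6, h7, hφ, hφ, sub_ne_zero]
  intro h8
  have hζ0 : ζ ≠ 0 := hζ.ne_zero hp.ne_zero
  have h9 : ζ ^ (2 * b.height i) = 1 := by
    have : ζ ^ (2 * b.height i) = ζ ^ (b.height i) * ζ ^ (b.height i) := by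
      rw [← zpow_add₀ hζ0]
      congr 1
      ring
    rw [this]
    nth_rewrite 1 [h8]
    rw [← zpow_add₀ hζ0]
    simp
  rw [hζ.zpow_eq_one_iff_dvd] at h9
  have hpos : 0 < b.height i := by
    have : b.IsPos i := by simpa [pos] using hi
    exact this
  have hp' : Prime (p : ℤ) := Nat.prime_iff_prime_int.1 hp
  rcases hp'.dvd_or_dvd h9 with h10 | h10
  · have h11 : p ∣ 2 := by exact_mod_cast h10
    exact hp2 ((Nat.prime_dvd_prime_iff_eq hp Nat.prime_two).1 h11)
  · have := Int.le_of_dvd hpos h10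
    have := hht i hi
    omega

/-- A character of the additive group of an algebraically closed field. -/
theorem exists_phi [IsAlgClosed K] {ζ : K} (hζ : ζ ≠ 0) :
    ∃ φ : Multiplicative K →* K, ∀ n : ℤ, φ (Multiplicative.ofAdd (2⁻¹ * (n : K))) = ζ ^ n := by
  have hdiv : ∀ n : ℤ, n ≠ 0 → Function.Surjective (fun a : Additive Kˣ => n • a) := by
    intro n hn a
    obtain ⟨x, hx⟩ := IsAlgClosed.exists_pow_nat_eq (k := K) ((Additive.toMul a : Kˣ) : K) (n := n.natAbs)
      (Int.natAbs_pos.2 hn)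
    have hx0 : x ≠ 0 := by
      rintro rfl
      rw [zero_pow (Int.natAbs_pos.2 hn).ne'] at hx
      exact (Additive.toMul a : Kˣ).ne_zero hx.symm
    have h1 : (n.natAbs : ℤ) • Additive.ofMul (Units.mk0 x hx0) = a := by
      apply Additive.toMul.injective
      rw [natCast_zsmul, toMul_nsmul]
      ext
      simpa using hx
    rcases Int.natAbs_eq n with h2 | h2
    · refine ⟨Additive.ofMul (Units.mk0 x hx0), ?_⟩
      change n • _ = a
      rw [h2]
      exact h1
    · refine ⟨-Additive.ofMul (Units.mk0 x hx0), ?_⟩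
      change n • _ = a
      rw [h2, neg_smul, smul_neg, neg_neg]
      exact h1
  let _ : DivisibleBy (Additive Kˣ) ℤ := divisibleByOfSMulRightSurj (Additive Kˣ) ℤ (fun {n} hn => hdiv n hn)
  have hB := Module.Baer.of_divisible (Additive Kˣ)
  let f : ℤ →+ K := (AddMonoidHom.mulLeft (2⁻¹ : K)).comp (Int.castAddHom K)
  have hf : Function.Injective f := by
    intro a c h
    have h1 : 2⁻¹ * (a : K) = 2⁻¹ * (c : K) := h
    have h2 := mul_left_cancel₀ (inv_ne_zero two_ne_zero) h1
    exact_mod_cast h2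
  let g : ℤ →+ Additive Kˣ := zmultiplesHom _ (Additive.ofMul (Units.mk0 ζ hζ))
  obtain ⟨h, hh⟩ := hB.extension_property_addMonoidHom f hf g
  refine ⟨(Units.coeHom K).comp (AddMonoidHom.toMultiplicativeLeft h), fun n => ?_⟩
  have h1 : h (2⁻¹ * (n : K)) = n • Additive.ofMul (Units.mk0 ζ hζ) := DFunLike.congr_fun hh n
  change ((Additive.toMul (h (2⁻¹ * (n : K))) : Kˣ) : K) = _
  rw [h1, toMul_zsmul]
  simp

end PF.W
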