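import Pool.Agent.Helper94.PG.Config3
import Pool.Agent.Helper94.PG.Zeta
import Pool.Agent.Helper3.PG.Levi
import Pool.Agent.Helper81.PF.C2

/-!
Project PG (MP_b8862a_ag), block PR: a prime number of weights on the top level gives a configuration of type
`A` or `B`.
-/

set_option linter.unusedSectionVars false
set_option linter.unusedVariables false

open Module LieModule LieAlgebra LieAlgebra.IsKilling MTP.MF

namespace PG.L

open PF PF.W PF.CC PF.L

section num

variable {ι K M N : Type*} [Field K] [CharZero K] [AddCommGroup M] [Module K M] [AddCommGroup N] [Module K N]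
  [Fintype ι] {P : RootPairing ι K M N}

theorem rho_coroot_height [P.IsRootSystem] [P.IsCrystallographic] [P.IsReduced] (b : P.Base) (i : ι) :
    P.toLinearMap (PF.W.rho b) (P.coroot i) = (b.flip.height i : K) := by
  have h := root_crho (P := P.flip) b.flip i
  have h2 : crho b.flip = rho b := by
    have := rho_flip (P := P.flip) b.flip
    exact this.symm
  rw [h2] at h
  exact h

/-- The prime number divides a factor. -/
theorem exists_factor (A : Finset ι) (m r : ι → ℤ) (hm : ∀ i ∈ A, 0 ≤ m i) (hr : ∀ i ∈ A, 0 < r i) {s : ℕ}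
    (hs : s.Prime) (h : (s : ℤ) * ∏ i ∈ A, r i = ∏ i ∈ A, (m i + r i)) :
    ∃ i ∈ A, 1 ≤ m i ∧ (s : ℤ) ≤ m i + r i := by
  classical
  have h1 := Finset.prod_filter_mul_prod_filter_not A (fun i => m i = 0) r
  have h2 := Finset.prod_filter_mul_prod_filter_not A (fun i => m i = 0) (fun i => m i + r i)
  have h3 : ∏ i ∈ A.filter (fun i => m i = 0), (m i + r i) = ∏ i ∈ A.filter (fun i => m i = 0), r i := by
    refine Finset.prod_congr rfl fun i hi => ?_
    rw [(Finset.mem_filter.1 hi).2, zero_add]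
  have h4 : ∏ i ∈ A.filter (fun i => m i = 0), r i ≠ 0 :=
    Finset.prod_ne_zero_iff.2 fun i hi => (hr i (Finset.mem_filter.1 hi).1).ne'
  rw [← h1, ← h2, h3] at h
  have h5 : (s : ℤ) * ∏ i ∈ A.filter (fun i => ¬ m i = 0), r i =
      ∏ i ∈ A.filter (fun i => ¬ m i = 0), (m i + r i) := by
    apply mul_left_cancel₀ h4
    rw [← h]
    ring
  have hp : Prime (s : ℤ) := Nat.prime_iff_prime_int.1 hs
  have h6 : (s : ℤ) ∣ ∏ i ∈ A.filter (fun i => ¬ m i = 0), (m i + r i) := by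
    rw [← h5]
    exact dvd_mul_right _ _
  obtain ⟨i, hi, h7⟩ := hp.exists_mem_finset_dvd h6
  rw [Finset.mem_filter] at hi
  have h8 := hm i hi.1
  have h9 := hr i hi.1
  refine ⟨i, hi.1, by omega, Int.le_of_dvd (by omega) h7⟩

end num

variable {K : Type*} [Field K] [CharZero K] [IsAlgClosed K]
  {L : Type*} [LieRing L] [LieAlgebra K L] [FiniteDimensional K L] [IsKilling K L]
  {H : LieSubalgebra K L} [H.IsCartanSubalgebra]
  {V : Type*} [AddCommGroup V] [Module K V] [FiniteDimensional K V]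
  [LieRingModule L V] [LieModule K L V] {I : Type*} [Fintype I] (B : WB (V := V) H I)

open Classical in
/-- the roots of degree zero -/
noncomputable def Ph0 (D : H) : Finset (EuclideanSpace ℝ H.root) :=
  (Finset.univ.filter fun α : H.root => α.1 D = 0).image fun α => vec (rt (rootSystem H) α)

open Classical in
/-- the weights of degree one -/
noncomputable def Y1 (D : H) : Finset (EuclideanSpace ℝ H.root) :=
  (Finset.univ.filter fun i : I => B.w i D = 1).image fun i => vec (wt B i)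

theorem mem_Ph0 {D : H} {v : EuclideanSpace ℝ H.root} :
    v ∈ Ph0 D ↔ ∃ α : H.root, α.1 D = 0 ∧ vec (rt (rootSystem H) α) = v := by
  classical
  simp [Ph0]

theorem mem_Y1 {D : H} {v : EuclideanSpace ℝ H.root} :
    v ∈ Y1 B D ↔ ∃ i : I, B.w i D = 1 ∧ vec (wt B i) = v := by
  classical
  simp [Y1]

theorem top_top [(rootSystem H).IsIrreducible] {D : H}
    (h2 : ∀ (α : H.root) (i : I), wt B i α ≤ 2)
    (h3 : ∀ α β : H.root, (rootSystem H).pairingIn ℤ α β ≤ 2) : PG.Top (Ph0 D) (Y1 B D) := by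
  have hR : ∀ α : H.root, RS (Ph (rootSystem H)) := fun α => by
    have : Nonempty H.root := ⟨α⟩
    exact rs (rootSystem H)
  constructor
  · intro a ha
    obtain ⟨α, h0, rfl⟩ := mem_Ph0.1 ha
    exact (hR α).ne_zero _ ((mem_Ph _).2 ⟨α, rfl⟩)
  · intro a ha b hb
    obtain ⟨α, h0, rfl⟩ := mem_Ph0.1 ha
    obtain ⟨β, h0', rfl⟩ := mem_Ph0.1 hb
    exact ⟨_, co_vec _ (wt_rt _ β) α⟩
  · intro a ha b hb
    obtain ⟨α, h0, rfl⟩ := mem_Ph0.1 ha
    obtain ⟨β, h0', rfl⟩ := mem_Ph0.1 hb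
    rw [co_vec _ (wt_rt _ β) α, ← vec_sub_smul]
    refine mem_Ph0.2 ⟨(rootSystem H).reflectionPerm α β, ?_, ?_⟩
    · have h1 : (rootSystem H).root ((rootSystem H).reflectionPerm α β) =
          (rootSystem H).root β - (rootSystem H).pairing β α • (rootSystem H).root α := by
        rw [(rootSystem H).root_reflectionPerm, (rootSystem H).reflection_apply_root]
      have h2 : (rootSystem H).root ((rootSystem H).reflectionPerm α β) D =
          (rootSystem H).root β D - (rootSystem H).pairing β α * (rootSystem H).root α D := by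
        rw [h1, LinearMap.sub_apply, LinearMap.smul_apply, smul_eq_mul]
      have h4 : (rootSystem H).root α D = 0 := h0
      have h5 : (rootSystem H).root β D = 0 := h0'
      rw [h4, h5, mul_zero, sub_zero] at h2
      exact h2
    · congr 1
      funext k
      rw [rt_refl_left]
      rfl
  · intro a ha c hc
    obtain ⟨α, h0, rfl⟩ := mem_Ph0.1 ha
    obtain ⟨β, h0', h1⟩ := mem_Ph0.1 hc
    exact (hR α).red _ ((mem_Ph _).2 ⟨α, rfl⟩) c ((mem_Ph _).2 ⟨β, h1⟩)
  · intro a ha b hb h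
    obtain ⟨α, h0, rfl⟩ := mem_Ph0.1 ha
    obtain ⟨β, h0', rfl⟩ := mem_Ph0.1 hb
    rw [co_vec _ (wt_rt _ β) α] at h
    have h1 : rt (rootSystem H) β α = 3 := by exact_mod_cast h
    have h4 := h3 β α
    have h5 : rt (rootSystem H) β α = (rootSystem H).pairingIn ℤ β α := rfl
    rw [← h5, h1] at h4
    norm_num at h4
  · intro a ha x hx
    obtain ⟨α, h0, rfl⟩ := mem_Ph0.1 ha
    obtain ⟨i, h1, rfl⟩ := (mem_Y1 B).1 hx
    exact ⟨_, co_vec _ (wt_wt B i) α⟩
  · intro a ha x hx j hj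
    obtain ⟨α, h0, rfl⟩ := mem_Ph0.1 ha
    obtain ⟨i, hi, rfl⟩ := (mem_Y1 B).1 hx
    rw [co_vec _ (wt_wt B i) α] at hj
    have hj' : (j : ℤ) ≤ wt B i α := by exact_mod_cast hj
    obtain ⟨b, n, h1, h2⟩ := string B α i
    have h3 : wt B i α = n - 2 * b := by
      have h4 : ((wt B i α : ℤ) : K) = ((n - 2 * b : ℤ) : K) := by
        rw [← wt_spec, h1]
        push_cast
        ring
      exact_mod_cast h4
    obtain ⟨i', hi'⟩ := h2 (b + j) (by omega)
    refine (mem_Y1 B).2 ⟨i', ?_, ?_⟩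
    · rw [hi' D, h0, mul_zero, add_zero, hi]
    · rw [wt_of B (i := i) (α := α) (k := -(j : ℤ)) (fun x => by
        rw [hi' x]
        push_cast
        ring)]
      rw [neg_smul, ← sub_eq_add_neg, vec_sub_smul]
      simp
  · intro a ha x hx
    obtain ⟨α, h0, rfl⟩ := mem_Ph0.1 ha
    obtain ⟨i, hi, rfl⟩ := (mem_Y1 B).1 hx
    rw [co_vec _ (wt_wt B i) α]
    exact_mod_cast h2 α i

open Classical in
/-- the numerical part -/
theorem prime_root (b : (rootSystem H).Base) {D : H} {t : I}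
    (ht : ∀ j ∈ b.support, ∃ k : ℕ, B.w t (coroot j.1) = (k : K)) {s : ℕ} (hs : s.Prime)
    (hform : (s : K) * ∏ α ∈ (pos b).filter (fun α => α.1 D = 0), rho b (coroot α.1) =
          ∏ α ∈ (pos b).filter (fun α => α.1 D = 0), (B.w t + rho b) (coroot α.1)) :
    (∀ α : H.root, b.IsPos α → 0 ≤ wt B t α) ∧
    ∃ α : H.root, b.IsPos α ∧ α.1 D = 0 ∧ 1 ≤ wt B t α ∧ (s : ℤ) ≤ wt B t α + b.flip.height α := by
  have hpos : ∀ α : H.root, b.IsPos α → 0 ≤ wt B t α := by
    intro α hα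
    have h1 : Dom (P := (rootSystem H).flip) b.flip (B.w t) := ht
    obtain ⟨k, hk⟩ := h1.pos (i := α) ((isPos_flip b α).2 hα)
    have h2 : B.w t (coroot α.1) = (k : K) := hk
    rw [wt_spec] at h2
    have h3 : wt B t α = k := by exact_mod_cast h2
    rw [h3]
    exact Int.natCast_nonneg k
  refine ⟨hpos, ?_⟩
  have hmem : ∀ α ∈ (pos b).filter (fun α => α.1 D = 0), b.IsPos α ∧ α.1 D = 0 := by
    intro α hα
    rw [Finset.mem_filter] at hα
    exact ⟨by simpa [pos] using hα.1, hα.2⟩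
  have hZ : (s : ℤ) * ∏ α ∈ (pos b).filter (fun α => α.1 D = 0), b.flip.height α =
      ∏ α ∈ (pos b).filter (fun α => α.1 D = 0), (wt B t α + b.flip.height α) := by
    have h1 : (((s : ℤ) * ∏ α ∈ (pos b).filter (fun α => α.1 D = 0), b.flip.height α : ℤ) : K) =
        ((∏ α ∈ (pos b).filter (fun α => α.1 D = 0), (wt B t α + b.flip.height α) : ℤ) : K) := by
      push_cast
      have e1 : ∀ α : H.root, rho b (coroot α.1) = (b.flip.height α : K) := fun α => rho_coroot_height b α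
      simp only [LinearMap.add_apply, e1, wt_spec] at hform
      exact hform
    exact_mod_cast h1
  obtain ⟨α, h1, h2, h3⟩ := exists_factor _ (wt B t) (fun α => b.flip.height α)
    (fun α hα => hpos α (hmem α hα).1) (fun α hα => (isPos_flip b α).2 (hmem α hα).1) hs hZ
  exact ⟨α, (hmem α h1).1, (hmem α h1).2, h2, h3⟩

theorem IsA.mono {E : Type*} [NormedAddCommGroup E] [InnerProductSpace ℝ E] {Φ Φ' : Finset E} (h : Φ ⊆ Φ') {s : ℕ}
    {ν : ℕ → E} (hA : IsA Φ s ν) : IsA Φ' s ν := by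
  obtain ⟨l, hl, h1⟩ := hA
  refine ⟨l, hl, fun i hi j hj hij => ?_⟩
  obtain ⟨h2, h3⟩ := h1 i hi j hj hij
  exact ⟨h h2, h3⟩

theorem IsB.mono {E : Type*} [NormedAddCommGroup E] [InnerProductSpace ℝ E] {Φ Φ' : Finset E} (h : Φ ⊆ Φ') {s : ℕ}
    {ν : ℕ → E} (hB : IsB Φ s ν) : IsB Φ' s ν := by
  obtain ⟨r, τ, e, l, h1, h2, h3, h4, h5, h6, h7, h8⟩ := hB
  refine ⟨r, τ, e, l, h1, h2, h3, h4, h5, fun i hi => ⟨h (h6 i hi).1, h (h6 i hi).2⟩, fun i hi j hj hij => ?_, h8⟩
  obtain ⟨a1, a2, a3⟩ := h7 i hi j hj hij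
  exact ⟨h a1, h a2, h a3⟩

open Classical in
/-- **The configuration of the top level.** -/
theorem top_config_of (hirr : ∀ W : Submodule K V, (∀ x : L, ∀ u ∈ W, ⁅x, u⁆ ∈ W) → W = ⊥ ∨ W = ⊤)
    (hfaith : ∀ x : L, (∀ u : V, ⁅x, u⁆ = 0) → x = 0) [Nonempty I] [(rootSystem H).IsIrreducible]
    (b : (rootSystem H).Base) {D : H}
    (hD : Dom b D) (hV : ∀ i, B.w i D = 1 ∨ B.w i D = 0 ∨ B.w i D = -1) (hne : ∃ i, B.w i D = 1) {s : ℕ}
    (hs : (Finset.univ.filter fun i => B.w i D = 1).card = s) (hp : s.Prime) (h5 : 3 ≤ s)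
    (h2 : ∀ (α : H.root) (i : I), wt B i α ≤ 2)
    (h3 : ∀ α β : H.root, (rootSystem H).pairingIn ℤ α β ≤ 2)
    (hch : ∀ f : Dual K H, (∀ j ∈ b.support, ∃ k : ℕ, f (coroot j.1) = (k : K)) →
      ∀ α : H.root, b.IsPos α → α.1 D = 0 → f (coroot α.1) ≠ 0 → b.flip.height α ≤
        ((Finset.univ.filter fun β : H.root => b.IsPos β ∧ β.1 D = 0 ∧ f (coroot β.1) ≠ 0).card : ℤ)) :
    ∃ ν : ℕ → EuclideanSpace ℝ H.root, (∀ i, B.w i D = 1 → ∃ j < s, ν j = vec (wt B i)) ∧
      (∀ j < s, ∃ i, B.w i D = 1 ∧ ν j = vec (wt B i)) ∧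
      (∀ i < s, ∀ j < s, ν i = ν j → i = j) ∧
      (∀ i j, B.w i D = 1 → B.w j D = 1 → vec (wt B i) = vec (wt B j) → i = j) ∧
      (IsA (Ph (rootSystem H)) s ν ∨ (5 ≤ s ∧ IsB (Ph (rootSystem H)) s ν) ∨ (s = 3 ∧ IsB1 (Ph (rootSystem H)) ν)) := by
  obtain ⟨t, ht1, ht2, ht3⟩ := levi B hirr hfaith b hD
  have htD : B.w t D = 1 := by
    obtain ⟨i, hi⟩ := hne
    obtain ⟨κ, hκ⟩ := ht1 i
    have h6 : ∀ j ∈ b.support, ∃ k : ℕ, (rootSystem H).root j D = (k : K) := hD
    choose! k hk using h6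
    have h7 : B.w t D = 1 + ((∑ j ∈ b.support, κ j * k j : ℕ) : K) := by
      have h8 : B.w i D = B.w t D - ((∑ j ∈ b.support, κ j * k j : ℕ) : K) := by
        rw [hκ, LinearMap.sub_apply, LinearMap.sum_apply]
        congr 1
        push_cast
        refine Finset.sum_congr rfl fun j hj => ?_
        rw [LinearMap.smul_apply, hk j hj, smul_eq_mul]
      rw [hi] at h8
      linear_combination -h8
    generalize (∑ j ∈ b.support, κ j * k j : ℕ) = n at h7
    rcases hV t with h9 | h9 | h9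
    · exact h9
    · exfalso
      rw [h9] at h7
      have : ((1 + n : ℕ) : K) = 0 := by
        push_cast
        exact h7.symm
      have h10 : 1 + n = 0 := by exact_mod_cast this
      omega
    · exfalso
      rw [h9] at h7
      have : ((2 + n : ℕ) : K) = 0 := by
        push_cast
        linear_combination -h7
      have h10 : 2 + n = 0 := by exact_mod_cast this
      omega
  rw [htD, hs] at ht3
  obtain ⟨hpos, α, hα, hαD, hm, hle⟩ := prime_root B b ht2 hp ht3
  have hT := top_top B (D := D) h2 h3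
  have hlam : vec (wt B t) ∈ Y1 B D := (mem_Y1 B).2 ⟨t, htD, rfl⟩
  have ha : vec (rt (rootSystem H) α) ∈ Ph0 D := mem_Ph0.2 ⟨α, hαD, rfl⟩
  have hco : co (vec (rt (rootSystem H) α)) (vec (wt B t)) = wt B t α := co_vec _ (wt_wt B t) α
  have hYs : (Y1 B D).card ≤ s := by
    rw [← hs]
    exact Finset.card_image_le
  have hcount : (b.flip.height α : ℤ) ≤ ((PP (Ph0 D) (vec (wt B t))).card : ℤ) := by
    have h6 := hch (B.w t) ht2 α hα hαD (by
      rw [wt_spec]
      intro h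
      have : wt B t α = 0 := by exact_mod_cast h
      omega)
    refine h6.trans ?_
    have h7 : (Finset.univ.filter fun β : H.root => b.IsPos β ∧ β.1 D = 0 ∧ B.w t (coroot β.1) ≠ 0).card =
        ((Finset.univ.filter fun β : H.root => b.IsPos β ∧ β.1 D = 0 ∧ B.w t (coroot β.1) ≠ 0).image
          fun β => vec (rt (rootSystem H) β)).card := by
      rw [Finset.card_image_of_injective]
      intro β γ h
      exact rt_inj (rootSystem H) (vec_inj h)
    rw [h7]
    have h8 : ((Finset.univ.filter fun β : H.root => b.IsPos β ∧ β.1 D = 0 ∧ B.w t (coroot β.1) ≠ 0).image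
          fun β => vec (rt (rootSystem H) β)) ⊆ PP (Ph0 D) (vec (wt B t)) := by
      intro v hv
      rw [Finset.mem_image] at hv
      obtain ⟨β, hβ, rfl⟩ := hv
      rw [Finset.mem_filter] at hβ
      obtain ⟨-, hβ1, hβ2, hβ3⟩ := hβ
      unfold PP
      rw [Finset.mem_filter]
      refine ⟨mem_Ph0.2 ⟨β, hβ2, rfl⟩, ?_⟩
      rw [co_vec _ (wt_wt B t) β]
      have h9 := hpos β hβ1
      have h10 : wt B t β ≠ 0 := by
        intro h
        apply hβ3
        rw [wt_spec, h]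
        simp
      have h11 : 1 ≤ wt B t β := by omega
      exact_mod_cast h11
    exact_mod_cast Finset.card_le_card h8
  obtain ⟨hYcard, ν, hν1, hν2, hν3, hν4⟩ := PG.config_all hT hlam ha (by rw [hco]; exact_mod_cast hm) hYs (by
    rw [hco]
    have h6 : (s : ℤ) ≤ wt B t α + ((PP (Ph0 D) (vec (wt B t))).card : ℤ) := by linarith
    exact_mod_cast h6) (hp.odd_of_ne_two (by omega)) h5
  refine ⟨ν, ?_, ?_, hν2, ?_, ?_⟩
  · intro i hi
    obtain ⟨j, hj, h6⟩ := hν3 _ ((mem_Y1 B).2 ⟨i, hi, rfl⟩)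
    exact ⟨j, hj, h6⟩
  · intro j hj
    obtain ⟨i, hi, h6⟩ := (mem_Y1 B).1 (hν1 j hj)
    exact ⟨i, hi, h6.symm⟩
  · have hinj : Set.InjOn (fun i => vec (wt B i)) ((Finset.univ.filter fun i => B.w i D = 1 : Finset I) : Set I) := by
      rw [← Finset.card_image_iff]
      rw [hs, ← hYcard]
      rfl
    intro i j hi hj hij
    exact hinj (by simpa using hi) (by simpa using hj) hij
  · have hsub : Ph0 D ⊆ Ph (rootSystem H) := by
      intro v hv
      obtain ⟨α, -, h6⟩ := mem_Ph0.1 hv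
      exact (mem_Ph _).2 ⟨α, h6⟩
    rcases hν4 with h6 | ⟨h7, h6⟩ | ⟨h7, τ, e, l, a1, a2, a3, a4, a5, a6⟩
    · exact Or.inl (IsA.mono hsub h6)
    · exact Or.inr (Or.inl ⟨h7, IsB.mono hsub h6⟩)
    · exact Or.inr (Or.inr ⟨h7, τ, e, l, a1, a2, a3, hsub a4, hsub a5, a6⟩)

end PG.L
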